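import Pool.Agent.W936.SP.Coord
import Pool.Agent.W936.Alg

/-!
# The test at the points of the generator with interpolated powers
-/

set_option autoImplicit false

namespace Pool.Agent.W936.SP

open MvPolynomial Pool.Agent.NPC Pool.Agent.H531R2

/-- `N!` times the interpolated power `(c + 1) ^ u`. -/
def bs (c N u : ℕ) : ℕ := ((List.range (N + 1)).map fun j =>
  ((List.range N).map fun l => if l < j then c * (u - l) else l + 1).prod).sum

/-- The base number. -/
def cl (M i : ℕ) : ℕ := (min i M + 1) * ((List.range M).map fun k => k + 1).prod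

theorem cl_eq (M i : ℕ) : cl M i = cn M i := by
  unfold cl cn
  congr 1
  induction M with
  | zero => rfl
  | succ M ih => rw [List.range_succ, List.map_append, List.prod_append, ih, Nat.factorial_succ]; simp [mul_comm]

/-- The value of the variable with the number `i`. -/
def spv (M N i : ℕ) (q : ℕ × ℕ) (A : List (ℕ × ℕ)) : ℕ := q.1 * bs (cl M i) N q.2 + sv M i A

/-- The list of the values of the variables with the numbers `0, …, m - 1`. -/
def spL (M N m : ℕ) (q : ℕ × ℕ) (A : List (ℕ × ℕ)) : List ℕ :=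
  (List.range m).map fun i => spv M N i q A

/-- The test. -/
def testP (v M N : ℕ) (P R : List ℕ) (E : ℕ) (C : List Gate) : Bool :=
  wfB C && P.all fun p => (prs R).all fun q => (pts v (prs R)).all fun A =>
    decide (nlastL ((p + 2) ^ E - 1) (spL M N C.length q A) C = 0)

theorem getD_spL {M N m i : ℕ} (hi : i < m) (q : ℕ × ℕ) (A : List (ℕ × ℕ)) :
    (spL M N m q A).getD i 0 = spv M N i q A := by
  rw [spL, List.getD_eq_getElem?_getD, List.getElem?_map, List.getElem?_range hi]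
  simp

/-- The test accepts all circuits of the zero polynomial. -/
theorem testP_of_zero (v M N : ℕ) (P R : List ℕ) (E : ℕ) (C : List Gate) (hC : WF C)
    (h : cpoly C = 0) : testP v M N P R E C = true := by
  rw [testP, Bool.and_eq_true, (wfB_iff C).2 hC, List.all_eq_true]
  refine ⟨rfl, fun p _ => ?_⟩
  rw [List.all_eq_true]
  intro q _
  rw [List.all_eq_true]
  intro A _
  rw [decide_eq_true_eq, nlastL_eq_zero_iff, h, map_zero]
  exact dvd_zero _

/-! ### The coordinates as polynomials -/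

/-- the interpolated power, as a polynomial over a ring -/
noncomputable def bp {R : Type} [CommRing R] (c N : ℕ) (x : R) : R :=
  ∑ j ∈ Finset.range (N + 1), ∏ l ∈ Finset.range N,
    if l < j then (c : R) * (x - (l : R)) else (l : R) + 1

theorem bp_map {R S : Type} [CommRing R] [CommRing S] (φ : R →+* S) (c N : ℕ) (x : R) :
    φ (bp c N x) = bp c N (φ x) := by
  unfold bp
  rw [map_sum]
  refine Finset.sum_congr rfl fun j _ => ?_
  rw [map_prod]
  refine Finset.prod_congr rfl fun l _ => ?_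
  split_ifs
  · rw [map_mul, map_sub, map_natCast, map_natCast]
  · rw [map_add, map_natCast, map_one]

theorem list_prod_range {R : Type} [CommMonoid R] (n : ℕ) (f : ℕ → R) :
    ((List.range n).map f).prod = ∏ l ∈ Finset.range n, f l := by
  induction n with
  | zero => simp
  | succ n ih =>
    rw [List.range_succ, List.map_append, List.prod_append, ih, Finset.prod_range_succ]
    simp

theorem list_sum_range {R : Type} [AddCommMonoid R] (n : ℕ) (f : ℕ → R) :
    ((List.range n).map f).sum = ∑ l ∈ Finset.range n, f l := by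
  induction n with
  | zero => simp
  | succ n ih =>
    rw [List.range_succ, List.map_append, List.sum_append, ih, Finset.sum_range_succ]
    simp

theorem bs_cast (c N u : ℕ) : ((bs c N u : ℕ) : ℤ) = bp c N (u : ℤ) := by
  unfold bs bp
  rw [list_sum_range, Nat.cast_sum]
  refine Finset.sum_congr rfl fun j hj => ?_
  rw [list_prod_range, Nat.cast_prod]
  have hjN : j ≤ N := by
    have := Finset.mem_range.1 hj
    omega
  by_cases h : j ≤ u
  · refine Finset.prod_congr rfl fun l _ => ?_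
    by_cases hl : l < j
    · rw [if_pos hl, if_pos hl, Nat.cast_mul, Nat.cast_sub (by omega)]
    · rw [if_neg hl, if_neg hl]
      push_cast
      ring
  · push Not at h
    have hu : u ∈ Finset.range N := Finset.mem_range.2 (by omega)
    rw [Finset.prod_eq_zero hu, Finset.prod_eq_zero hu]
    · rw [if_pos h, sub_self, mul_zero]
    · rw [if_pos h, Nat.sub_self, mul_zero]
      rfl

/-- over the complex numbers -/
theorem bp_C (c N : ℕ) : bp c N (Polynomial.X : Polynomial ℂ) =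
    Polynomial.C (N.factorial : ℂ) * Pool.Agent.H626R2.Loc.psi ℂ N (c + 1) := by
  unfold bp Pool.Agent.H626R2.Loc.psi
  rw [Finset.mul_sum]
  refine Finset.sum_congr rfl fun j hj => ?_
  have hjN : j ≤ N := by
    have := Finset.mem_range.1 hj
    omega
  have key : ∀ N, j ≤ N → (∏ l ∈ Finset.range N, if l < j then
      ((c : ℕ) : Polynomial ℂ) * (Polynomial.X - ((l : ℕ) : Polynomial ℂ)) else
        ((l : ℕ) : Polynomial ℂ) + 1) =
      Polynomial.C ((N.factorial : ℂ) / (j.factorial : ℂ) * (c : ℂ) ^ j) *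
        descPochhammer ℂ j := by
    intro N hN
    induction N, hN using Nat.le_induction with
    | base =>
      have h1 : ∀ i, i ≤ j → (∏ l ∈ Finset.range i, if l < j then
          ((c : ℕ) : Polynomial ℂ) * (Polynomial.X - ((l : ℕ) : Polynomial ℂ)) else
            ((l : ℕ) : Polynomial ℂ) + 1) = Polynomial.C ((c : ℂ) ^ i) * descPochhammer ℂ i := by
        intro i hi
        induction i with
        | zero => simp
        | succ i ih =>
          rw [Finset.prod_range_succ, ih (by omega), if_pos (by omega), descPochhammer_succ_right,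
            pow_succ, Polynomial.C_mul]
          rw [show Polynomial.C ((c : ℕ) : ℂ) = ((c : ℕ) : Polynomial ℂ) from
            Polynomial.C_eq_natCast c]
          ring
      rw [h1 j le_rfl, div_self (Nat.cast_ne_zero.2 j.factorial_ne_zero), one_mul]
    | succ N hN ih =>
      rw [Finset.prod_range_succ, ih, if_neg (by omega), Nat.factorial_succ]
      have h2 : ((N : ℕ) : Polynomial ℂ) + 1 = Polynomial.C ((N : ℂ) + 1) := by
        rw [Polynomial.C_add, Polynomial.C_1, Polynomial.C_eq_natCast]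
      rw [h2, mul_comm (Polynomial.C _ * descPochhammer ℂ j), ← mul_assoc, ← Polynomial.C_mul]
      congr 2
      push_cast
      ring
  rw [key N hjN, ← mul_assoc, ← Polynomial.C_mul]
  congr 2
  rw [Nat.add_sub_cancel]
  ring

variable {v : ℕ}

/-- the variables -/
abbrev iy (t : Fin v) : Fin (v + v + 2) := Fin.castAdd 2 (Fin.castAdd v t)

abbrev iz (t : Fin v) : Fin (v + v + 2) := Fin.castAdd 2 (Fin.natAdd v t)

abbrev ia : Fin (v + v + 2) := Fin.natAdd (v + v) 0

abbrev iu : Fin (v + v + 2) := Fin.natAdd (v + v) 1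

/-- The coordinates of the generator. -/
noncomputable def gB (v N M i : ℕ) : MvPolynomial (Fin (v + v + 2)) ℤ :=
  X ia * bp (cn M i) N (X iu) + ∑ t : Fin v, X (iy t) *
    ∏ k ∈ (Finset.range M).erase i, (X (iz t) + C ((k : ℤ) + 1))

theorem eval_gB (N M i : ℕ) (a : Fin (v + v + 2) → ℕ) :
    eval (fun t => (a t : ℤ)) (gB v N M i) =
      ((spv M N i (a ia, a iu) (List.ofFn fun t : Fin v => (a (iy t), a (iz t))) : ℕ) : ℤ) := by
  unfold gB spv
  rw [Nat.cast_add, Nat.cast_mul, sv_cast, List.map_ofFn, List.sum_ofFn, map_add, map_mul, eval_X,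
    bp_map, eval_X, map_sum, bs_cast, cl_eq]
  congr 1
  refine Finset.sum_congr rfl fun t _ => ?_
  rw [map_mul, eval_X, map_prod]
  congr 1
  refine Finset.prod_congr rfl fun k _ => ?_
  rw [map_add, eval_X, eval_C]

theorem ptL_spL {M N : ℕ} (C : List Gate) (a : Fin (v + v + 2) → ℕ) {j : ℕ}
    (hj : j ∈ cvars C) :
    ptL C (spL M N C.length (a ia, a iu) (List.ofFn fun t : Fin v => (a (iy t), a (iz t)))) j
      = eval (fun t => (a t : ℤ)) (gB v N M (idx C j)) := by
  rw [ptL, getD_spL (idx_lt hj), eval_gB]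

theorem totalDegree_bp {w : ℕ} (c N : ℕ) (t : Fin w) :
    (bp c N (X t : MvPolynomial (Fin w) ℤ)).totalDegree ≤ N := by
  unfold bp
  apply Pool.Agent.H531R2.totalDegree_sum_le
  intro j _
  refine (totalDegree_finsetProd _ _).trans ?_
  refine (Finset.sum_le_card_nsmul _ _ 1 fun l _ => ?_).trans ?_
  · split_ifs
    · have h1 : ((c : ℕ) : MvPolynomial (Fin w) ℤ) * (X t - ((l : ℕ) : MvPolynomial (Fin w) ℤ)) =
          C (c : ℤ) * (X t - C (l : ℤ)) := by
        rw [← MvPolynomial.C_eq_coe_nat, ← MvPolynomial.C_eq_coe_nat]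
      rw [h1]
      refine (totalDegree_C_mul_le _ _).trans ?_
      refine (totalDegree_sub _ _).trans ?_
      rw [totalDegree_X, totalDegree_C]
      simp
    · have h1 : ((l : ℕ) : MvPolynomial (Fin w) ℤ) + 1 = C ((l : ℤ) + 1) := by
        rw [C_add, C_1, ← MvPolynomial.C_eq_coe_nat]
      rw [h1, totalDegree_C]
      exact Nat.zero_le _
  · rw [Finset.card_range, smul_eq_mul, mul_one]

theorem nrm_bp {w : ℕ} (c N : ℕ) (t : Fin w) :
    nrm (bp c N (X t : MvPolynomial (Fin w) ℤ)) ≤ (N + 1) * ((c + 1) * (N + 1)) ^ N := by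
  unfold bp
  refine (nrm_sum _ _).trans ?_
  refine (Finset.sum_le_card_nsmul _ _ (((c + 1) * (N + 1)) ^ N) fun j _ => ?_).trans ?_
  · refine (nrm_prod_le _ _ ((c + 1) * (N + 1)) fun l hl => ?_).trans ?_
    · have hlN := Finset.mem_range.1 hl
      split_ifs
      · have h1 : ((c : ℕ) : MvPolynomial (Fin w) ℤ) * (X t - ((l : ℕ) : MvPolynomial (Fin w) ℤ)) =
            C (c : ℤ) * (X t + C (-(l : ℤ))) := by
          rw [← MvPolynomial.C_eq_coe_nat, ← MvPolynomial.C_eq_coe_nat, C_neg, ← sub_eq_add_neg]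
        rw [h1]
        refine (nrm_mul _ _).trans (Nat.mul_le_mul ((nrm_C _).trans ?_) ((nrm_add _ _).trans ?_))
        · rw [Int.natAbs_natCast]; omega
        · have h2 := nrm_X_le t
          have h3 := nrm_C (σ := Fin w) (-(l : ℤ))
          rw [Int.natAbs_neg, Int.natAbs_natCast] at h3
          omega
      · have h1 : ((l : ℕ) : MvPolynomial (Fin w) ℤ) + 1 = C ((l : ℤ) + 1) := by
          rw [C_add, C_1, ← MvPolynomial.C_eq_coe_nat]
        rw [h1]
        refine (nrm_C _).trans ?_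
        have h2 : ((l : ℤ) + 1).natAbs = l + 1 := by omega
        rw [h2]
        nlinarith
    · rw [Finset.card_range]
  · rw [Finset.card_range, smul_eq_mul]

theorem cn_le (M i : ℕ) : cn M i + 1 ≤ 2 ^ (M * M + M + 1) := by
  unfold cn
  have h1 : M.factorial ≤ 2 ^ (M * M) := by
    refine (Nat.factorial_le_pow M).trans ?_
    rw [pow_mul]
    exact Nat.pow_le_pow_left Nat.lt_two_pow_self.le _
  have h2 : min i M + 1 ≤ 2 ^ M := by
    have h3 : M < 2 ^ M := Nat.lt_two_pow_self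
    have h4 := min_le_right i M
    omega
  have h3 : (min i M + 1) * M.factorial ≤ 2 ^ M * 2 ^ (M * M) := Nat.mul_le_mul h2 h1
  have h4 : 2 ^ (M * M + M + 1) = 2 ^ M * 2 ^ (M * M) + 2 ^ M * 2 ^ (M * M) := by
    rw [pow_succ, pow_add]; ring
  have h5 : 1 ≤ 2 ^ M * 2 ^ (M * M) := Nat.mul_pos (by positivity) (by positivity)
  omega

/-- bounds for the degrees and the norms of the coordinates -/
def dB (N M : ℕ) : ℕ := N + M + 2

def eB (v N M : ℕ) : ℕ := N + N * (M * M + M + 1 + N) + v + M * M + 1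

theorem totalDegree_gB (v N M i : ℕ) : (gB v N M i).totalDegree ≤ dB N M := by
  unfold gB dB
  refine (totalDegree_add _ _).trans (max_le ?_ ?_)
  · refine (totalDegree_mul _ _).trans ?_
    have h1 := totalDegree_bp (w := v + v + 2) (cn M i) N iu
    rw [totalDegree_X]
    omega
  · apply Pool.Agent.H531R2.totalDegree_sum_le
    intro t _
    refine (totalDegree_mul _ _).trans ?_
    have h1 : (∏ k ∈ (Finset.range M).erase i,
        (X (iz t) + C ((k : ℤ) + 1) : MvPolynomial (Fin (v + v + 2)) ℤ)).totalDegree ≤ M := by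
      refine (totalDegree_finsetProd _ _).trans ?_
      refine (Finset.sum_le_card_nsmul _ _ 1 fun k _ => ?_).trans ?_
      · refine (totalDegree_add _ _).trans ?_
        rw [totalDegree_X, totalDegree_C]
        simp
      · rw [smul_eq_mul, mul_one]
        refine (Finset.card_le_card (Finset.erase_subset _ _)).trans ?_
        rw [Finset.card_range]
    rw [totalDegree_X]
    omega

theorem nrm_gB (v N M i : ℕ) : nrm (gB v N M i) ≤ 2 ^ eB v N M := by
  have hM : ∀ t : Fin v, nrm (X (iy t) *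
      ∏ k ∈ (Finset.range M).erase i, (X (iz t) + C ((k : ℤ) + 1)) :
        MvPolynomial (Fin (v + v + 2)) ℤ) ≤ 2 ^ (M * M) := by
    intro t
    refine (nrm_mul _ _).trans ?_
    have h1 := nrm_X_le (iy t)
    have h2 : nrm (∏ k ∈ (Finset.range M).erase i,
        (X (iz t) + C ((k : ℤ) + 1) : MvPolynomial (Fin (v + v + 2)) ℤ)) ≤ 2 ^ (M * M) := by
      have h3 : nrm (∏ k ∈ (Finset.range M).erase i,
          (X (iz t) + C ((k : ℤ) + 1) : MvPolynomial (Fin (v + v + 2)) ℤ)) ≤
          (M + 1) ^ ((Finset.range M).erase i).card := by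
        refine nrm_prod_le _ _ (M + 1) fun k hk => ?_
        have h4 : k < M := Finset.mem_range.1 (Finset.mem_of_mem_erase hk)
        refine (nrm_add _ _).trans ?_
        have h5 := nrm_X_le (iz t)
        have h6 := nrm_C (σ := Fin (v + v + 2)) ((k : ℤ) + 1)
        have h7 : ((k : ℤ) + 1).natAbs = k + 1 := by omega
        omega
      refine h3.trans ?_
      have h8 : ((Finset.range M).erase i).card ≤ M := by
        refine (Finset.card_le_card (Finset.erase_subset _ _)).trans ?_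
        rw [Finset.card_range]
      refine (Nat.pow_le_pow_right (Nat.succ_pos M) h8).trans ?_
      rw [pow_mul]
      exact Nat.pow_le_pow_left Nat.lt_two_pow_self _
    calc _ ≤ 1 * 2 ^ (M * M) := Nat.mul_le_mul h1 h2
      _ = _ := one_mul _
  have h1 : nrm (X ia * bp (cn M i) N (X iu) : MvPolynomial (Fin (v + v + 2)) ℤ) ≤
      2 ^ (N + N * (M * M + M + 1 + N)) := by
    refine (nrm_mul _ _).trans ?_
    refine (Nat.mul_le_mul (nrm_X_le ia) (nrm_bp (cn M i) N iu)).trans ?_
    rw [one_mul, pow_add]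
    refine Nat.mul_le_mul Nat.lt_two_pow_self ?_
    rw [mul_comm N, pow_mul]
    refine Nat.pow_le_pow_left ?_ _
    rw [pow_add]
    exact Nat.mul_le_mul (cn_le M i) Nat.lt_two_pow_self
  have h2 : nrm (∑ t : Fin v, X (iy t) *
      ∏ k ∈ (Finset.range M).erase i, (X (iz t) + C ((k : ℤ) + 1)) :
        MvPolynomial (Fin (v + v + 2)) ℤ) ≤ 2 ^ (v + M * M) := by
    refine (nrm_sum _ _).trans ?_
    refine (Finset.sum_le_card_nsmul Finset.univ _ (2 ^ (M * M)) fun t _ => hM t).trans ?_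
    rw [Finset.card_univ, Fintype.card_fin, smul_eq_mul, pow_add]
    exact Nat.mul_le_mul_right _ Nat.lt_two_pow_self.le
  unfold gB
  refine (nrm_add _ _).trans ((Nat.add_le_add h1 h2).trans ?_)
  have h3 : 2 ^ (N + N * (M * M + M + 1 + N)) ≤
      2 ^ (N + N * (M * M + M + 1 + N) + v + M * M) := Nat.pow_le_pow_right (by omega) (by omega)
  have h4 : 2 ^ (v + M * M) ≤
      2 ^ (N + N * (M * M + M + 1 + N) + v + M * M) := Nat.pow_le_pow_right (by omega) (by omega)
  unfold eB
  rw [pow_succ]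
  omega

/-! ### The test runs in polynomial time -/

section Poly

variable {α : Type} [TEnc α]

theorem poly_bs {c N u : α → ℕ} (hc : NPC.Poly c) (hN : UPoly N) (hu : NPC.Poly u) :
    NPC.Poly (fun a => bs (c a) (N a) (u a)) := by
  have h1 : NPC.Poly (fun q : (α × ℕ) × ℕ => decide (q.2 < q.1.2)) :=
    NPC.Poly.decide_lt (NPC.Poly.snd NPC.Poly.id) (NPC.Poly.snd (NPC.Poly.fst NPC.Poly.id))
  have h2 : NPC.Poly (fun q : (α × ℕ) × ℕ => c q.1.1 * (u q.1.1 - q.2)) :=
    NPC.Poly.mul (hc.comp (NPC.Poly.fst (NPC.Poly.fst NPC.Poly.id)))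
      (NPC.Poly.sub (hu.comp (NPC.Poly.fst (NPC.Poly.fst NPC.Poly.id)))
        (NPC.Poly.snd NPC.Poly.id))
  have h3 : NPC.Poly (fun q : (α × ℕ) × ℕ => q.2 + 1) :=
    NPC.Poly.add (NPC.Poly.snd NPC.Poly.id) (NPC.Poly.const 1)
  have h4 : NPC.Poly (fun q : (α × ℕ) × ℕ =>
      if q.2 < q.1.2 then c q.1.1 * (u q.1.1 - q.2) else q.2 + 1) := NPC.Poly.ite h1 h2 h3
  have h5 : NPC.Poly (fun p : α × ℕ => List.range (N p.1)) :=
    (hN.comp (NPC.Poly.fst NPC.Poly.id)).range
  have h6 : NPC.Poly (fun p : α × ℕ => (List.range (N p.1)).map fun l =>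
      if l < p.2 then c p.1 * (u p.1 - l) else l + 1) :=
    NPC.Poly.map (F := fun (p : α × ℕ) (l : ℕ) =>
      if l < p.2 then c p.1 * (u p.1 - l) else l + 1) h5 h4
  have h7 := poly_prod h6
  have h8 : NPC.Poly (fun a => List.range (N a + 1)) := (UPoly.add hN (UPoly.const 1)).range
  have h9 : NPC.Poly (fun a => (List.range (N a + 1)).map fun j =>
      ((List.range (N a)).map fun l => if l < j then c a * (u a - l) else l + 1).prod) :=
    NPC.Poly.map (F := fun (a : α) (j : ℕ) =>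
      ((List.range (N a)).map fun l => if l < j then c a * (u a - l) else l + 1).prod) h8 h7
  exact NPC.Poly.sum h9

theorem poly_cl {M i : α → ℕ} (hM : UPoly M) (hM' : NPC.Poly M) (hi : NPC.Poly i) :
    NPC.Poly (fun a => cl (M a) (i a)) := by
  have h1 : NPC.Poly (fun p : α × ℕ => p.2 + 1) :=
    NPC.Poly.add (NPC.Poly.snd NPC.Poly.id) (NPC.Poly.const 1)
  have h2 : NPC.Poly (fun a => (List.range (M a)).map fun k => k + 1) :=
    NPC.Poly.map (F := fun (_ : α) (k : ℕ) => k + 1) hM.range h1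
  exact NPC.Poly.mul (NPC.Poly.add (NPC.Poly.min hi hM') (NPC.Poly.const 1)) (poly_prod h2)

theorem poly_spL {M N m : α → ℕ} {q : α → ℕ × ℕ} {A : α → List (ℕ × ℕ)} (hM : UPoly M)
    (hM' : NPC.Poly M) (hN : UPoly N) (hm : UPoly m) (hq : NPC.Poly q) (hA : NPC.Poly A) :
    NPC.Poly (fun a => spL (M a) (N a) (m a) (q a) (A a)) := by
  have h1 : NPC.Poly (fun a => List.range (m a)) := hm.range
  have hf : NPC.Poly (fun p : α × ℕ => p.1) := NPC.Poly.fst NPC.Poly.id
  have h2 : NPC.Poly (fun p : α × ℕ => sv (M p.1) p.2 (A p.1)) :=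
    poly_sv (hM.comp hf) (NPC.Poly.snd NPC.Poly.id) (hA.comp hf)
  have h3 : NPC.Poly (fun p : α × ℕ => cl (M p.1) p.2) :=
    poly_cl (hM.comp hf) (hM'.comp hf) (NPC.Poly.snd NPC.Poly.id)
  have h4 : NPC.Poly (fun p : α × ℕ => bs (cl (M p.1) p.2) (N p.1) (q p.1).2) :=
    poly_bs h3 (hN.comp hf) (NPC.Poly.snd (hq.comp hf))
  have h5 : NPC.Poly (fun p : α × ℕ => spv (M p.1) (N p.1) p.2 (q p.1) (A p.1)) :=
    NPC.Poly.add (NPC.Poly.mul (NPC.Poly.fst (hq.comp hf)) h4) h2
  exact NPC.Poly.map (F := fun a i => spv (M a) (N a) i (q a) (A a)) h1 h5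

theorem poly_testP (v : ℕ) {M N : α → ℕ} {P R : α → List ℕ} {E : α → ℕ} {C : α → List Gate}
    (hM : UPoly M) (hM' : NPC.Poly M) (hN : UPoly N) (hP : NPC.Poly P) (hR : NPC.Poly R)
    (hE : UPoly E) (hC : NPC.Poly C) :
    NPC.Poly (fun a => testP v (M a) (N a) (P a) (R a) (E a) (C a)) := by
  have f1 : NPC.Poly (fun p : ((α × ℕ) × (ℕ × ℕ)) × List (ℕ × ℕ) => p.1.1.1) :=
    NPC.Poly.fst (NPC.Poly.fst (NPC.Poly.fst NPC.Poly.id))
  have g0 : NPC.Poly (fun p : α × ℕ => prs (R p.1)) :=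
    (poly_prs hR).comp (NPC.Poly.fst NPC.Poly.id)
  have g1 : NPC.Poly (fun p : (α × ℕ) × (ℕ × ℕ) => pts v (prs (R p.1.1))) :=
    (poly_pts v (poly_prs hR)).comp (NPC.Poly.fst (NPC.Poly.fst NPC.Poly.id))
  have h2 : NPC.Poly (fun p : ((α × ℕ) × (ℕ × ℕ)) × List (ℕ × ℕ) => p.1.1.2 + 2) :=
    NPC.Poly.add (NPC.Poly.snd (NPC.Poly.fst (NPC.Poly.fst NPC.Poly.id))) (NPC.Poly.const 2)
  have h3 : UPoly (fun p : ((α × ℕ) × (ℕ × ℕ)) × List (ℕ × ℕ) => E p.1.1.1) := hE.comp f1
  have h4 : NPC.Poly (fun p : ((α × ℕ) × (ℕ × ℕ)) × List (ℕ × ℕ) => C p.1.1.1) := hC.comp f1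
  have h4' : UPoly (fun p : ((α × ℕ) × (ℕ × ℕ)) × List (ℕ × ℕ) => M p.1.1.1) := hM.comp f1
  have h4'' : NPC.Poly (fun p : ((α × ℕ) × (ℕ × ℕ)) × List (ℕ × ℕ) => M p.1.1.1) := hM'.comp f1
  have h4n : UPoly (fun p : ((α × ℕ) × (ℕ × ℕ)) × List (ℕ × ℕ) => N p.1.1.1) := hN.comp f1
  have h5 : NPC.Poly (fun p : ((α × ℕ) × (ℕ × ℕ)) × List (ℕ × ℕ) =>
      (p.1.1.2 + 2) ^ E p.1.1.1 - 1) := NPC.Poly.sub (NPC.Poly.npow h2 h3) (NPC.Poly.const 1)
  have h5' : NPC.Poly (fun p : ((α × ℕ) × (ℕ × ℕ)) × List (ℕ × ℕ) =>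
      spL (M p.1.1.1) (N p.1.1.1) (C p.1.1.1).length p.1.2 p.2) :=
    poly_spL h4' h4'' h4n (UPoly.length h4) (NPC.Poly.snd (NPC.Poly.fst NPC.Poly.id))
      (NPC.Poly.snd NPC.Poly.id)
  have h6 : NPC.Poly (fun p : ((α × ℕ) × (ℕ × ℕ)) × List (ℕ × ℕ) =>
      nlastL ((p.1.1.2 + 2) ^ E p.1.1.1 - 1)
        (spL (M p.1.1.1) (N p.1.1.1) (C p.1.1.1).length p.1.2 p.2) (C p.1.1.1)) :=
    poly_nlastL h5 h5' h4
  have h7 : NPC.Poly (fun p : ((α × ℕ) × (ℕ × ℕ)) × List (ℕ × ℕ) =>
      decide (nlastL ((p.1.1.2 + 2) ^ E p.1.1.1 - 1)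
        (spL (M p.1.1.1) (N p.1.1.1) (C p.1.1.1).length p.1.2 p.2) (C p.1.1.1) = 0)) :=
    NPC.Poly.decide_eq h6 (NPC.Poly.const 0)
  have h8 : NPC.Poly (fun p : (α × ℕ) × (ℕ × ℕ) => (pts v (prs (R p.1.1))).all fun A =>
      decide (nlastL ((p.1.2 + 2) ^ E p.1.1 - 1)
        (spL (M p.1.1) (N p.1.1) (C p.1.1).length p.2 A) (C p.1.1) = 0)) :=
    NPC.Poly.all (p := fun (p : (α × ℕ) × (ℕ × ℕ)) A =>
      decide (nlastL ((p.1.2 + 2) ^ E p.1.1 - 1)
        (spL (M p.1.1) (N p.1.1) (C p.1.1).length p.2 A) (C p.1.1) = 0)) g1 h7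
  have h9 : NPC.Poly (fun p : α × ℕ => (prs (R p.1)).all fun q => (pts v (prs (R p.1))).all fun A =>
      decide (nlastL ((p.2 + 2) ^ E p.1 - 1)
        (spL (M p.1) (N p.1) (C p.1).length q A) (C p.1) = 0)) :=
    NPC.Poly.all (p := fun (p : α × ℕ) q => (pts v (prs (R p.1))).all fun A =>
      decide (nlastL ((p.2 + 2) ^ E p.1 - 1)
        (spL (M p.1) (N p.1) (C p.1).length q A) (C p.1) = 0)) g0 h8
  have h10 : NPC.Poly (fun a => (P a).all fun p => (prs (R a)).all fun q =>
      (pts v (prs (R a))).all fun A =>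
      decide (nlastL ((p + 2) ^ E a - 1) (spL (M a) (N a) (C a).length q A) (C a) = 0)) :=
    NPC.Poly.all (p := fun a p => (prs (R a)).all fun q => (pts v (prs (R a))).all fun A =>
      decide (nlastL ((p + 2) ^ E a - 1) (spL (M a) (N a) (C a).length q A) (C a) = 0)) hP h9
  exact NPC.Poly.and (poly_wfB hC) h10

end Poly

end Pool.Agent.W936.SP
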