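import Pool.Agent.W936.SP.Mach
import Pool.Agent.W936.Bridge

/-!
# From the integer generator to the generator over the complex numbers
-/

set_option autoImplicit false

namespace Pool.Agent.W936.SP

open MvPolynomial Pool.Agent.H531R2

open Pool.Agent.H626R2.Loc (evG genG)

/-- The substitution of the seeds. -/
noncomputable def toB (v M : ℕ) :
    MvPolynomial (Fin (v + v + 2)) ℤ →+* MvPolynomial (Fin v ⊕ Fin v) (Polynomial ℂ) :=
  eval₂Hom (Int.castRingHom _)
    (Fin.addCases (motive := fun _ => MvPolynomial (Fin v ⊕ Fin v) (Polynomial ℂ))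
      (Fin.addCases (motive := fun _ => MvPolynomial (Fin v ⊕ Fin v) (Polynomial ℂ))
        (fun t => (-1) ^ (M - 1) * X (Sum.inl t)) (fun t => -X (Sum.inr t) - 1))
      ![1, C Polynomial.X])

theorem toB_y (v M : ℕ) (t : Fin v) : toB v M (X (iy t)) = (-1) ^ (M - 1) * X (Sum.inl t) := by
  rw [toB, eval₂Hom_X', Fin.addCases_left, Fin.addCases_left]

theorem toB_z (v M : ℕ) (t : Fin v) : toB v M (X (iz t)) = -X (Sum.inr t) - 1 := by
  rw [toB, eval₂Hom_X', Fin.addCases_left, Fin.addCases_right]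

theorem toB_a (v M : ℕ) : toB v M (X ia) = 1 := by
  rw [toB, eval₂Hom_X', Fin.addCases_right]
  rfl

theorem toB_u (v M : ℕ) : toB v M (X iu) = C Polynomial.X := by
  rw [toB, eval₂Hom_X', Fin.addCases_right]
  rfl

theorem toB_gB (v N : ℕ) {M : ℕ} (i : Fin M) : toB v M (gB v N M i.val) =
    genG (bC M N) v i := by
  classical
  unfold gB genG
  rw [map_add, map_mul, toB_a, one_mul, bp_map, toB_u, ← bp_map, bp_C, map_sum]
  congr 1
  refine Finset.sum_congr rfl fun t _ => ?_
  rw [map_mul, map_prod, toB_y]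
  have h1 : (Finset.range M).erase i.val = (Finset.univ.erase i).image Fin.val := by
    ext k
    simp only [Finset.mem_erase, Finset.mem_range, Finset.mem_image, Finset.mem_univ, and_true]
    constructor
    · rintro ⟨h1, h2⟩
      exact ⟨⟨k, h2⟩, fun h => h1 (by rw [← h]), rfl⟩
    · rintro ⟨k', hk', rfl⟩
      exact ⟨fun h => hk' (Fin.ext h), k'.isLt⟩
  rw [h1, Finset.prod_image (fun a _ b _ h => Fin.ext h)]
  have h2 : ∀ k ∈ Finset.univ.erase i, toB v M (X (iz t) + C (((k.val : ℕ) : ℤ) + 1)) =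
      (-1) * (X (Sum.inr t) - C ((k.val : ℕ) : Polynomial ℂ)) := by
    intro k _
    have h3 : toB v M (C (((k.val : ℕ) : ℤ) + 1)) = C ((k.val : ℕ) : Polynomial ℂ) + 1 := by
      rw [toB, eval₂Hom_C, map_add, map_one, map_natCast, map_natCast]
    rw [map_add, toB_z, h3]
    ring
  rw [Finset.prod_congr rfl h2, Finset.prod_mul_distrib, Finset.prod_const,
    Finset.card_erase_of_mem (Finset.mem_univ i), Finset.card_univ, Fintype.card_fin]
  have h3 : ((-1 : MvPolynomial (Fin v ⊕ Fin v) (Polynomial ℂ)) ^ (M - 1)) * (-1) ^ (M - 1) = 1 := by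
    rw [← mul_pow]
    norm_num
  linear_combination (X (Sum.inl t) *
    ∏ i' ∈ Finset.univ.erase i, (X (Sum.inr t) - C ((i'.val : ℕ) : Polynomial ℂ))) * h3

theorem bridgeB {v M N n : ℕ} (σ : Fin n → ℕ) (idx : ℕ → ℕ) (hlt : ∀ i, idx (σ i) < M)
    (P : MvPolynomial (Fin n) ℤ) : toB v M (ThG (gB v N) M idx (rename σ P)) =
      evG ℂ (bC M N) v (rename (fun i => (⟨idx (σ i), hlt i⟩ : Fin M)) (toC n P)) := by
  have h : ((toB v M).comp ((ThG (gB v N) M idx).toRingHom.comp (rename σ).toRingHom)) =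
      ((evG ℂ (bC M N) v).toRingHom.comp ((rename (R := ℂ)
        (fun i => (⟨idx (σ i), hlt i⟩ : Fin M))).toRingHom.comp (toC n))) := by
    apply MvPolynomial.ringHom_ext
    · intro z
      show toB v M (ThG (gB v N) M idx (rename σ (C z))) = evG ℂ (bC M N) v (rename _ (toC n (C z)))
      rw [rename_C, toC, map_C, rename_C, ThG, algHom_C, algebraMap_eq, evG, algHom_C, toB,
        eval₂Hom_C]
      simp
    · intro i
      show toB v M (ThG (gB v N) M idx (rename σ (X i))) = evG ℂ (bC M N) v (rename _ (toC n (X i)))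
      rw [rename_X, toC, map_X, rename_X, ThG_X, evG, aeval_X]
      exact toB_gB v N (⟨idx (σ i), hlt i⟩ : Fin M)
  exact RingHom.congr_fun h P

/-- A class of polynomials which is closed under renaming and hit by the generator gives
injective substitutions. -/
theorem injB_of {v n m p N : ℕ} (K : ∀ N : ℕ, Set (MvPolynomial (Fin N) ℂ))
    (hren : ∀ (N N' : ℕ) (τ : Fin N → Fin N'), Function.Injective τ → ∀ f ∈ K N,
      rename τ f ∈ K N') (hhit : ∀ M, ∀ f ∈ K M, f ≠ 0 → evG ℂ (bC M N) v f ≠ 0)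
    (σ : Fin n → ℕ) (hσ : Function.Injective σ) (g : Fin p → MvPolynomial (Fin n) ℤ)
    (e : Fin m → Fin p → ℕ) (hg : ∀ j, g j ≠ 0)
    (hocc : ∀ j, g j = 1 ∨ ∃ i, e i j ≠ 0)
    (hspan : ∀ δ : Fin m → ℤ, toC n (∑ i, C (δ i) * ∏ j, g j ^ e i j) ∈ K n) :
    InjG (gB v N) (Finset.univ.image σ) (fun j => rename σ (g j)) e := by
  classical
  intro M idx hidx hlt
  have hlt' : ∀ i, idx (σ i) < M := fun i =>
    hlt _ (Finset.mem_image_of_mem σ (Finset.mem_univ i))
  set τ : Fin n → Fin M := fun i => ⟨idx (σ i), hlt' i⟩ with hτdef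
  have hτ : Function.Injective τ := by
    intro i j hij
    have h1 : idx (σ i) = idx (σ j) := congrArg Fin.val hij
    exact hσ (hidx (Finset.mem_coe.2 (Finset.mem_image_of_mem σ (Finset.mem_univ i)))
      (Finset.mem_coe.2 (Finset.mem_image_of_mem σ (Finset.mem_univ j))) h1)
  have key : ∀ P : MvPolynomial (Fin n) ℤ, toC n P ∈ K n →
      ThG (gB v N) M idx (rename σ P) = 0 → P = 0 := by
    intro P hP h0
    have h1 := bridgeB (v := v) (N := N) σ idx hlt' P
    rw [h0, map_zero] at h1
    by_contra hne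
    refine hhit M _ (hren _ _ τ hτ _ hP) ?_ h1.symm
    intro h2
    apply hne
    apply toC_inj
    apply rename_injective τ hτ
    rw [h2, map_zero]
  have hsum : ∀ δ : Fin m → ℤ, ∑ i, C (δ i) * ∏ j, (rename σ (g j)) ^ e i j =
      rename σ (∑ i, C (δ i) * ∏ j, g j ^ e i j) := by
    intro δ
    rw [map_sum]
    refine Finset.sum_congr rfl fun i _ => ?_
    rw [map_mul, rename_C, map_prod]
    congr 1
    refine Finset.prod_congr rfl fun j _ => ?_
    rw [map_pow]
  constructor
  · intro j h0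
    rcases hocc j with h1 | ⟨i, hi⟩
    · simp only [h1, map_one] at h0
      exact one_ne_zero h0
    · -- the product `i` is killed
      have h2 : ThG (gB v N) M idx (rename σ (∑ i', C (if i' = i then (1 : ℤ) else 0) *
          ∏ j, g j ^ e i' j)) = 0 := by
        rw [← hsum]
        rw [map_sum]
        refine Finset.sum_eq_zero fun i' _ => ?_
        by_cases hii : i' = i
        · subst hii
          rw [map_mul, map_prod, Finset.prod_eq_zero (Finset.mem_univ j), mul_zero]
          rw [map_pow, h0, zero_pow hi]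
        · rw [if_neg hii, C_0, zero_mul, map_zero]
      have h3 := key _ (hspan _) h2
      rw [Finset.sum_eq_single i] at h3
      · rw [if_pos rfl, C_1, one_mul] at h3
        exact Finset.prod_ne_zero_iff.2 (fun j _ => pow_ne_zero _ (hg j)) h3
      · intro i' _ hii
        rw [if_neg hii, C_0, zero_mul]
      · intro h
        exact absurd (Finset.mem_univ i) h
  · intro δ h0
    rw [hsum] at h0 ⊢
    rw [key _ (hspan δ) h0, map_zero]

end Pool.Agent.W936.SP
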