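import Pool.Agent.W936.SP.Bridge
import Pool.Agent.Results.MP_c2aa42_lc.SumsOfSparseFormulas

/-!
# The classes of `MP_c2aa42_lc.SumsOfSparseFormulas`: renaming of the variables, general base points
-/

set_option autoImplicit false

namespace Pool.Agent.W936.SP

open MvPolynomial Pool.Agent.H530R2 Pool.Agent.W936.RO Pool.Agent.W936.WB

open Pool.Agent.H626R2.Loc (evG)

open Pool.Agent.Results.MP_c2aa42_lc.SumsOfSparseFormulas

section ren

variable {n M : ℕ} {τ : Fin n → Fin M}

theorem contents_renS {u : ℕ} (c₀ : Fin u → ℂ)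
    (N : ℕ → Matrix (Fin u) (Fin u) (MvPolynomial (Fin n) ℂ)) (b : ℕ) :
    ∀ j, rename τ (contents c₀ N b j) = contents c₀ (fun b => (N b).map (rename τ)) b j := by
  induction b with
  | zero => intro j; simp only [contents, rename_C]
  | succ b ih =>
    intro j
    simp only [contents, Matrix.vecMul, dotProduct, map_sum, map_mul, ih, Matrix.map_apply]

theorem prog_ren {w s D : ℕ} (hw : 1 ≤ w) (hτ : Function.Injective τ)
    {f : MvPolynomial (Fin n) ℂ} (h : Prog w s D f) : Prog w s D (rename τ f) := by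
  classical
  induction h with
  | @sparse f hf hw' =>
    refine Prog.sparse ?_ ?_
    · rw [support_rename_of_injective hτ]
      exact Finset.card_image_le.trans hf
    · rcases hw' with hw' | hw'
      · left
        exact (Finset.card_le_card (vars_rename τ f)).trans (Finset.card_image_le.trans hw')
      · right
        intro x
        by_cases hx : x ∈ Set.range τ
        · obtain ⟨i, rfl⟩ := hx
          refine le_trans (Finset.card_le_card (t := f.support.image fun a => a i) ?_)
            (le_trans (le_of_eq (by congr!)) (hw' i))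
          intro y hy
          rw [Finset.mem_image] at hy
          obtain ⟨a, ha, rfl⟩ := hy
          rw [support_rename_of_injective hτ, Finset.mem_image] at ha
          obtain ⟨b, hb, rfl⟩ := ha
          rw [Finsupp.mapDomain_apply hτ]
          exact Finset.mem_image_of_mem _ hb
        · refine le_trans (Finset.card_le_card (t := {0}) ?_) (by rwa [Finset.card_singleton])
          intro y hy
          rw [Finset.mem_image] at hy
          obtain ⟨a, ha, rfl⟩ := hy
          rw [support_rename_of_injective hτ, Finset.mem_image] at ha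
          obtain ⟨b, hb, rfl⟩ := ha
          rw [Finsupp.mapDomain_of_notMem_range _ _ hx]
          exact Finset.mem_singleton_self _
  | @program D u c₀ N R P hu hocc _ ih =>
    have h1 : rename τ (aeval (contents c₀ N R) P) =
        aeval (contents c₀ (fun b => (N b).map (rename τ)) R) P := by
      rw [comp_aeval_apply]
      congr 2
      funext j
      exact contents_renS c₀ N R j
    rw [h1]
    refine Prog.program c₀ _ R P hu ?_ ?_
    · intro x
      by_cases hx : x ∈ Set.range τ
      · obtain ⟨i, rfl⟩ := hx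
        refine le_trans (Finset.card_le_card ?_) (hocc i)
        intro b hb
        rw [Finset.mem_filter] at hb ⊢
        refine ⟨hb.1, ?_⟩
        obtain ⟨y, z, hyz⟩ := hb.2
        exact ⟨y, z, (mem_vars_ren hτ _).1 hyz⟩
      · refine le_trans (le_of_eq ?_) (Nat.zero_le w)
        rw [Finset.card_eq_zero, Finset.filter_eq_empty_iff]
        rintro b _ ⟨y, z, hyz⟩
        obtain ⟨i, _, hi⟩ := vars_ren_sub _ hyz
        exact hx ⟨i, hi⟩
    · intro b i j
      exact ih b i j

/-- Renaming of the variables of a formula. -/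
noncomputable def renS (τ : Fin n → Fin M) : Formula n → Formula M
  | .leaf g => .leaf (rename τ g)
  | .gate c₀ c₁ c₂ c₃ a b => .gate c₀ c₁ c₂ c₃ (renS τ a) (renS τ b)

theorem renS_value (E : Formula n) : (renS τ E).value = rename τ E.value := by
  induction E with
  | leaf g => rfl
  | gate c₀ c₁ c₂ c₃ a b iha ihb =>
    simp only [renS, Formula.value, map_add, map_mul, rename_C, iha, ihb]

theorem renS_reads (hτ : Function.Injective τ) (E : Formula n) (i : Fin n) :
    (renS τ E).reads (τ i) = E.reads i := by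
  classical
  induction E with
  | leaf g =>
    simp only [renS, Formula.reads]
    simp only [mem_vars_ren hτ g]
  | gate c₀ c₁ c₂ c₃ a b iha ihb => simp only [renS, Formula.reads, iha, ihb]

theorem renS_reads' (E : Formula n) {x : Fin M} (hx : x ∉ Set.range τ) :
    (renS τ E).reads x = 0 := by
  classical
  induction E with
  | leaf g =>
    simp only [renS, Formula.reads]
    rw [if_neg]
    intro h
    obtain ⟨i, _, hi⟩ := vars_ren_sub g h
    exact hx ⟨i, hi⟩
  | gate c₀ c₁ c₂ c₃ a b iha ihb => simp only [renS, Formula.reads, iha, ihb]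

theorem renS_leaves {w s D : ℕ} (hw : 1 ≤ w) (hτ : Function.Injective τ) (E : Formula n)
    (h : E.Leaves (Prog w s D)) : (renS τ E).Leaves (Prog w s D) := by
  induction E with
  | leaf g => exact prog_ren hw hτ h
  | gate c₀ c₁ c₂ c₃ a b iha ihb => exact ⟨iha h.1, ihb h.2⟩

theorem renS_rank {w t : ℕ} (hτ : Function.Injective τ) {f : Bool} {S : Finset (Fin n)}
    {E : Formula n} (h : Rank w f t S E) : Rank w f t (S.map ⟨τ, hτ⟩) (renS τ E) := by
  induction h with
  | leaf t g => exact .leaf t _
  | sum _ _ iha ihb => exact .sum iha ihb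
  | left _ _ iha ihb => exact .left iha ihb
  | right _ _ iha ihb => exact .right iha ihb
  | spine _ ih => exact .spine ih
  | product h _ _ iha ihb => exact .product h iha ihb
  | @bag t S B c₀ c₁ c₂ c₃ a b h1 h2 h3 _ _ iha ihb =>
    refine .bag (B := B.map ⟨τ, hτ⟩) (by rwa [Finset.card_map]) (fun x ha hb => ?_)
      (fun x hx hab => ?_) iha ihb
    · by_cases hx : x ∈ Set.range τ
      · obtain ⟨i, rfl⟩ := hx
        rw [renS_reads hτ] at ha hb
        exact Finset.mem_map_of_mem ⟨τ, hτ⟩ (h2 i ha hb)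
      · rw [renS_reads' _ hx] at ha
        omega
    · obtain ⟨i, hi, rfl⟩ := Finset.mem_map.1 hx
      refine Finset.mem_map_of_mem ⟨τ, hτ⟩ (h3 i hi ?_)
      have e1 : (renS τ a).reads ((⟨τ, hτ⟩ : Fin n ↪ Fin M) i) = a.reads i := renS_reads hτ a i
      have e2 : (renS τ b).reads ((⟨τ, hτ⟩ : Fin n ↪ Fin M) i) = b.reads i := renS_reads hτ b i
      rwa [e1, e2] at hab

theorem compS_ren {w s D t : ℕ} (hw : 1 ≤ w) (hτ : Function.Injective τ)
    {g : MvPolynomial (Fin n) ℂ} (h : Composite w s D t g) : Composite w s D t (rename τ g) := by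
  obtain ⟨E, P, hE, rfl⟩ := h
  refine ⟨fun i => renS τ (E i), P, fun i => ⟨renS_leaves hw hτ _ (hE i).1, fun x => ?_, ?_⟩, ?_⟩
  · by_cases hx : x ∈ Set.range τ
    · obtain ⟨y, rfl⟩ := hx
      rw [renS_reads hτ]
      exact (hE i).2.1 y
    · rw [renS_reads' _ hx]
      exact Nat.zero_le _
  · have h1 := renS_rank hτ (hE i).2.2
    rwa [Finset.map_empty] at h1
  · rw [comp_aeval_apply]
    congr 2
    funext i
    exact (renS_value _).symm

theorem sumsS_ren {w s D t κ : ℕ} (hw : 1 ≤ w) (hτ : Function.Injective τ)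
    {f : MvPolynomial (Fin n) ℂ} (h : Sums w s D t κ f) : Sums w s D t κ (rename τ f) := by
  obtain ⟨N, T, hT, hdep, hf⟩ := h
  have hprod : ∀ i, ((T i).map (rename τ)).prod = rename τ (T i).prod := fun i =>
    Multiset.prod_hom (T i) (rename τ)
  refine ⟨N, fun i => (T i).map (rename τ), ?_, ?_, ?_⟩
  · intro i g hg
    rw [Multiset.mem_map] at hg
    obtain ⟨g', hg', rfl⟩ := hg
    exact compS_ren hw hτ (hT i g' hg')
  · intro u hu
    apply hdep u
    simp only [hprod] at hu
    exact AlgebraicIndependent.of_comp (rename τ) hu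
  · simp only [hprod]
    have h2 : (Algebra.adjoin ℂ (Set.range fun i => (T i).prod)).map
        (rename τ : MvPolynomial (Fin n) ℂ →ₐ[ℂ] MvPolynomial (Fin M) ℂ) =
        Algebra.adjoin ℂ (Set.range fun i => rename τ (T i).prod) := by
      rw [AlgHom.map_adjoin, ← Set.range_comp]
      rfl
    rw [← h2]
    exact Subalgebra.mem_map.2 ⟨f, hf, rfl⟩

end ren

/-- the members of the class do not vanish on the generator, for every base point that hits sparse
polynomials -/
theorem sums_hitB (w D κ : ℕ) : ∃ A m : ℕ, ∀ n s t : ℕ, ∀ β : Fin n → Polynomial ℂ,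
    (∀ h : MvPolynomial (Fin n) ℂ, h ≠ 0 → h.support.card ≤ (s + 2) ^ A → aeval β h ≠ 0) →
    ∀ f : MvPolynomial (Fin n) ℂ, Sums w s D t κ f → f ≠ 0 → evG ℂ β (m * (t + 1)) f ≠ 0 := by
  classical
  by_contra hcon
  push Not at hcon
  choose n_ s_ t_ b_ hb f_ hf_ hf0 hev using fun k => hcon k k
  set 𝔎 : Fam (RatFunc ℂ) := bfam n_ s_ b_ hb with h𝔎
  obtain ⟨m, hm⟩ := rank_hit3 (F := RatFunc ℂ) (up 𝔎 D) κ (w + 1) w (nc w κ D) w
    (bd w D + (up 𝔎 D).c0) (Nat.succ_pos w)
  have hmem : ∀ f : MvPolynomial (Fin (n_ m)) ℂ, f.support.card ≤ s_ m →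
      sext f ∈ 𝔎.K m (n_ m) 1 := fun f hf => bfam_mem hb m hf
  refine hm (n_ m) m (rVan (b_ m)) (bfam_ok hb D m) (rpt (b_ m)) 1
    ⟨le_rfl, fun j Y => by rw [mul_one]; rfl⟩ (t_ m) (LfD 𝔎 m (n_ m) w D κ) (fun g hg => hg.1)
    (fun y => LfD.const y) (fun A hA g hg => hg.2 A hA) (sext (f_ m)) ?_
    (fun h => hf0 m (ext_inj (by rw [h, map_zero]))) (mem_rVan (hev m))
  obtain ⟨N', T, hT, hdep, hmem'⟩ := hf_ m
  have he : ∀ S : Multiset (MvPolynomial (Fin (n_ m)) ℂ), (S.map sext).prod = sext S.prod :=
    fun S => (map_multiset_prod (sext (n := n_ m)) S).symm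
  refine ⟨N', fun i => (T i).map sext, fun i g hg => ?_, fun u => ?_, ?_⟩
  · obtain ⟨g', hg', rfl⟩ := Multiset.mem_map.1 hg
    exact comp_polyIn hmem (hT i g' hg')
  · simp only [he]
    exact ext_dep (hdep u)
  · simp only [he]
    exact ext_adjoin hmem'

end Pool.Agent.W936.SP
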