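import Mathlib
import Pool.Agent.W936.WB.Hits

/-!
Interpolated powers of pairwise coprime numbers that are easy to compute.
-/

set_option autoImplicit false

namespace Pool.Agent.W936.SP

open MvPolynomial

open Pool.Agent.H626R2.Loc (psi psiN evG genG)

/-- The base number of the variable with the number `i`, minus one. -/
def cn (M i : ℕ) : ℕ := (min i M + 1) * M.factorial

theorem cn_pos (M i : ℕ) : 1 ≤ cn M i :=
  Nat.mul_pos (Nat.succ_pos _) (Nat.factorial_pos M)

theorem cn_prime {M i j : ℕ} (hi : i < M) (hj : j < M) (hij : i ≠ j) {p : ℕ} (hp : p.Prime)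
    (h1 : p ∣ cn M i + 1) : ¬ p ∣ cn M j + 1 := by
  intro h2
  unfold cn at h1 h2
  rw [Nat.min_eq_left hi.le] at h1
  rw [Nat.min_eq_left hj.le] at h2
  have hM : ¬ p ∣ M.factorial := by
    intro h
    have h3 : p ∣ (i + 1) * M.factorial := h.mul_left _
    have h4 : p ∣ 1 := (Nat.dvd_add_right h3).1 h1
    exact hp.one_lt.ne' (Nat.dvd_one.1 h4)
  have key : ∀ a b : ℕ, a < b → b < M → p ∣ (a + 1) * M.factorial + 1 →
      p ∣ (b + 1) * M.factorial + 1 → False := by
    intro a b hab hb ha hb'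
    have h3 : p ∣ ((b + 1) * M.factorial + 1) - ((a + 1) * M.factorial + 1) := Nat.dvd_sub hb' ha
    have h4 : ((b + 1) * M.factorial + 1) - ((a + 1) * M.factorial + 1) =
        (b - a) * M.factorial := by
      rw [Nat.add_sub_add_right, ← Nat.sub_mul]
      congr 1
      omega
    rw [h4] at h3
    rcases (Nat.Prime.dvd_mul hp).1 h3 with h | h
    · apply hM
      exact (Nat.Prime.dvd_factorial hp).2 ((Nat.le_of_dvd (by omega) h).trans (by omega))
    · exact hM h
  rcases lt_or_gt_of_ne hij with h | h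
  · exact key i j h hj h1 h2
  · exact key j i h hi h2 h1

theorem prod_injective {M : ℕ} (e e' : Fin M →₀ ℕ)
    (h : ∏ m : Fin M, (cn M m + 1) ^ e m = ∏ m : Fin M, (cn M m + 1) ^ e' m) : e = e' := by
  classical
  ext m
  set p := (cn M m + 1).minFac with hpdef
  have hp : p.Prime := Nat.minFac_prime (by have := cn_pos M m; omega)
  have hpd : p ∣ cn M m + 1 := Nat.minFac_dvd _
  have key : ∀ e : Fin M →₀ ℕ, (∏ i : Fin M, (cn M i + 1) ^ e i).factorization p =
      e m * (cn M m + 1).factorization p := by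
    intro e
    rw [Nat.factorization_prod (S := Finset.univ) (g := fun i : Fin M => (cn M i + 1) ^ e i)
      (fun i _ => pow_ne_zero _ (Nat.succ_ne_zero _)), Finsupp.finsetSum_apply,
      Finset.sum_eq_single m]
    · rw [Nat.factorization_pow, Finsupp.smul_apply, smul_eq_mul]
    · intro i _ him
      rw [Nat.factorization_pow, Finsupp.smul_apply, smul_eq_mul]
      have h1 : ¬ p ∣ cn M i + 1 := cn_prime m.isLt i.isLt
        (fun h => him (Fin.ext h.symm)) hp hpd
      rw [Nat.factorization_eq_zero_of_not_dvd h1, mul_zero]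
    · intro h
      exact absurd (Finset.mem_univ _) h
  have h1 := key e
  rw [h, key e'] at h1
  have h2 : 0 < (cn M m + 1).factorization p :=
    hp.factorization_pos_of_dvd (Nat.succ_ne_zero _) hpd
  exact Nat.eq_of_mul_eq_mul_right h2 h1.symm

/-- sparse polynomials at the powers of the base numbers -/
theorem pow_hit {M N : ℕ} (f : MvPolynomial (Fin M) ℂ) (hf : f ≠ 0)
    (hN : f.support.card ≤ N + 1) :
    ∃ j ≤ N, eval (fun m : Fin M => ((cn M m + 1 : ℕ) : ℂ) ^ j) f ≠ 0 := by
  classical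
  by_contra hcon
  push Not at hcon
  apply hf
  let v : (Fin M →₀ ℕ) → ℕ := fun e => ∏ m : Fin M, (cn M m + 1) ^ e m
  have hv : Function.Injective v := fun e e' h => prod_injective e e' h
  have heval : ∀ j : ℕ, eval (fun m : Fin M => ((cn M m + 1 : ℕ) : ℂ) ^ j) f =
      ∑ e ∈ f.support, coeff e f * ((v e : ℕ) : ℂ) ^ j := by
    intro j
    rw [eval_eq]
    refine Finset.sum_congr rfl fun e _ => ?_
    congr 1
    simp only [v]
    rw [Nat.cast_prod, ← Finset.prod_pow]
    have h1 : ∏ i ∈ e.support, (((cn M i + 1 : ℕ) : ℂ) ^ j) ^ e i =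
        ∏ i : Fin M, (((cn M i + 1 : ℕ) : ℂ) ^ j) ^ e i := by
      refine Finset.prod_subset (Finset.subset_univ _) ?_
      intro i _ hi
      rw [Finsupp.notMem_support_iff] at hi
      rw [hi, pow_zero]
    rw [h1]
    refine Finset.prod_congr rfl fun i _ => ?_
    rw [Nat.cast_pow, ← pow_mul, ← pow_mul, mul_comm]
  let E := f.support.equivFin
  have h0 : (fun i : Fin f.support.card => coeff ((E.symm i : f.support) : Fin M →₀ ℕ) f) = 0 := by
    apply Matrix.eq_zero_of_forall_pow_sum_mul_pow_eq_zero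
      (f := fun i : Fin f.support.card => ((v ((E.symm i : f.support) : Fin M →₀ ℕ) : ℕ) : ℂ))
    · intro i i' h
      have h1 := hv (Nat.cast_injective h)
      exact E.symm.injective (Subtype.ext h1)
    · intro j
      have h1 := hcon j (by omega)
      rw [heval, ← Finset.sum_coe_sort] at h1
      rw [← h1]
      exact E.symm.sum_comp (fun e : f.support =>
        coeff (e : Fin M →₀ ℕ) f * ((v (e : Fin M →₀ ℕ) : ℕ) : ℂ) ^ (j : ℕ))
  rw [← support_eq_empty, Finset.eq_empty_iff_forall_notMem]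
  intro e he
  have h1 := congrFun h0 (E ⟨e, he⟩)
  simp only [Equiv.symm_apply_apply, Pi.zero_apply] at h1
  exact (mem_support_iff.1 he) h1

/-- the base point -/
noncomputable def bC (M N : ℕ) (i : Fin M) : Polynomial ℂ :=
  Polynomial.C (N.factorial : ℂ) * psi ℂ N (cn M i + 1)

theorem psi_ne {M N : ℕ} {h : MvPolynomial (Fin M) ℂ} (h0 : h ≠ 0) (hN : h.support.card ≤ N) :
    aeval (fun i : Fin M => psi ℂ N (cn M i + 1)) h ≠ 0 := by
  obtain ⟨j, hj, hne⟩ := pow_hit h h0 (hN.trans (Nat.le_succ N))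
  intro hc
  apply hne
  have h3 := congrArg (Polynomial.eval (j : ℂ)) hc
  rw [Pool.Agent.H626R2.Loc.S7.eval_aeval, Polynomial.eval_zero] at h3
  rw [← h3]
  congr 2
  funext m
  show _ = (psi ℂ N (cn M m + 1)).eval (j : ℂ)
  rw [Pool.Agent.H626R2.Loc.psi_eval, Pool.Agent.H626R2.Loc.psiN_eq (Nat.succ_pos _) hj]
  push_cast
  rfl

/-- the base point hits sparse polynomials -/
theorem bC_ne {M N : ℕ} {h : MvPolynomial (Fin M) ℂ} (h0 : h ≠ 0) (hN : h.support.card ≤ N) :
    aeval (bC M N) h ≠ 0 := by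
  classical
  set σ : Fin M → ℂ := fun _ => (N.factorial : ℂ) with hσ
  have hσ0 : ∀ m, σ m ≠ 0 := fun _ => Nat.cast_ne_zero.2 N.factorial_ne_zero
  have h1 : aeval (bC M N) h = aeval (fun i : Fin M => psi ℂ N (cn M i + 1))
      (WB.scl σ h) := by
    rw [WB.scl, ← AlgHom.comp_apply, comp_aeval]
    congr 2
    funext m
    rw [map_mul, aeval_X, algHom_C]
    rfl
  have hp : ∀ e : Fin M →₀ ℕ, ∏ m, σ m ^ e m ≠ 0 := fun e =>
    Finset.prod_ne_zero_iff.2 fun m _ => pow_ne_zero _ (hσ0 m)
  rw [h1]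
  refine psi_ne ?_ ((Finset.card_le_card ?_).trans hN)
  · obtain ⟨e, he⟩ := MvPolynomial.ne_zero_iff.1 h0
    refine MvPolynomial.ne_zero_iff.2 ⟨e, ?_⟩
    rw [WB.coeff_scl]
    exact mul_ne_zero he (hp e)
  · intro e he
    rw [MvPolynomial.mem_support_iff] at he ⊢
    intro hc
    apply he
    rw [WB.coeff_scl, hc, zero_mul]

end Pool.Agent.W936.SP
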