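import Pool.Agent.W936.SP.Alg
import Pool.Agent.W936.SP.Hit

/-!
# The decision procedure for the generator with interpolated powers
-/

set_option autoImplicit false

namespace Pool.Agent.W936.SP

open MvPolynomial Pool.Agent.H531R2 Pool.Agent.H626R2 Pool.Agent.H964R3 Pool.Agent.NPC

/-- the number of interpolated powers -/
def NB (k n : ℕ) : ℕ := (n + 2) ^ k

/-- bound for the degrees and the logarithms of the norms -/
def HB (v k n m : ℕ) : ℕ :=
  n * (dB (NB k n) (mm 0 n m) + eB v (NB k n) (mm 0 n m) + 1)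

/-- The bound for the numbers to be tried. -/
def XB (v k n m : ℕ) : ℕ :=
  (PPG (v + v + 2) n (HB v k n m) + DG n (HB v k n m) + n + 5) ^ 2

/-- The test rejects all circuits of tame polynomials. -/
theorem test_of_tameB {v k n m : ℕ} (P R : List ℕ) (C : List Gate) (hm : C.length ≤ m)
    (hP : ∀ p ≤ XB v k n m, p ∈ P) (hR : ∀ a < XB v k n m ^ 2, a ∈ R)
    (hf : TameG (gB v (NB k n)) n (cpoly C)) :
    testP v (mm 0 n m) (NB k n) P R (ExG (v + v + 2) n (HB v k n m) + 1) C = false := by
  have hH1 : n * dB (NB k n) (mm 0 n m) ≤ HB v k n m := by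
    unfold HB
    exact Nat.mul_le_mul_left _ (by omega)
  have hH2 : n * (eB v (NB k n) (mm 0 n m) + 1) ≤ HB v k n m := by
    unfold HB
    exact Nat.mul_le_mul_left _ (by omega)
  obtain ⟨Δ, Q, hΔ0, hΔle, hQ, hΔp⟩ := hitG hf (cvars C) (vars_cpoly C) (Pool.Agent.H531R2.idx C)
    (idx_injOn C) m (fun j hj => (idx_lt hj).trans_le hm)
    (fun i => totalDegree_gB v (NB k n) (mm 0 n m) i)
    (fun i => nrm_gB v (NB k n) (mm 0 n m) i) hH1 hH2
  obtain ⟨p, hp, hpd, hpQ, hpm, hpX⟩ := prime_choiceQ (PPG (v + v + 2) n (HB v k n m))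
    (DG n (HB v k n m)) Δ n Q hΔ0 hΔle hQ
  obtain ⟨a, ha, had⟩ := hΔp p hp hpd hpQ hpm
  by_contra h
  rw [Bool.not_eq_false, testP, Bool.and_eq_true, List.all_eq_true] at h
  have hpX' : p ≤ XB v k n m := hpX
  have h1 := h.2 (p - 2) (hP _ (by omega))
  rw [List.all_eq_true] at h1
  have hpR : ∀ z < p ^ 2, z ∈ R := fun z hz =>
    hR z (lt_of_lt_of_le hz (Nat.pow_le_pow_left hpX' 2))
  have h1' := h1 (a ia, a iu) (by
    rw [mem_prs]
    exact ⟨hpR _ (ha _), hpR _ (ha _)⟩)
  rw [List.all_eq_true] at h1'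
  have h2 := h1' (List.ofFn fun t : Fin v => (a (iy t), a (iz t))) (by
    rw [mem_pts]
    refine ⟨by simp, ?_⟩
    intro z hz
    rw [List.mem_ofFn] at hz
    obtain ⟨t, rfl⟩ := hz
    rw [mem_prs]
    exact ⟨hpR _ (ha _), hpR _ (ha _)⟩)
  rw [decide_eq_true_eq, nlastL_eq_zero_iff] at h2
  apply had
  have h3 : p - 2 + 2 = p := Nat.sub_add_cancel hp.two_le
  have h4 : p ^ (ExG (v + v + 2) n (HB v k n m) + 1) - 1 + 1 =
      p ^ (ExG (v + v + 2) n (HB v k n m) + 1) :=
    Nat.sub_add_cancel (Nat.one_le_pow _ _ hp.pos)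
  rw [h3, h4] at h2
  have h5 : eval (fun j => eval (fun t => (a t : ℤ))
      (gB v (NB k n) (mm 0 n m) (Pool.Agent.H531R2.idx C j))) (cpoly C)
      = eval (ptL C (spL (mm 0 n m) (NB k n) C.length (a ia, a iu) (List.ofFn fun t : Fin v =>
        (a (iy t), a (iz t))))) (cpoly C) := by
    apply eval₂Hom_congr' rfl _ rfl
    intro j hj _
    rw [ptL_spL C a (vars_cpoly C hj)]
  rw [h5]
  exact_mod_cast h2

section UPoly

variable {α : Type} [TEnc α]

theorem uNB (k : ℕ) {n : α → ℕ} (hn : UPoly n) : UPoly (fun a => NB k (n a)) :=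
  upow (UPoly.add hn (UPoly.const 2)) k

theorem udB {N M : α → ℕ} (hN : UPoly N) (hM : UPoly M) : UPoly (fun a => dB (N a) (M a)) :=
  UPoly.add (UPoly.add hN hM) (UPoly.const 2)

theorem ueB (v : ℕ) {N M : α → ℕ} (hN : UPoly N) (hM : UPoly M) :
    UPoly (fun a => eB v (N a) (M a)) :=
  UPoly.add (UPoly.add (UPoly.add (UPoly.add hN (UPoly.mul hN (UPoly.add (UPoly.add
    (UPoly.add (UPoly.mul hM hM) hM) (UPoly.const 1)) hN))) (UPoly.const v)) (UPoly.mul hM hM))
    (UPoly.const 1)

theorem uHB (v k : ℕ) {n m : α → ℕ} (hn : UPoly n) (hm : UPoly m) :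
    UPoly (fun a => HB v k (n a) (m a)) :=
  UPoly.mul hn (UPoly.add (UPoly.add (udB (uNB k hn) (umm 0 hn hm))
    (ueB v (uNB k hn) (umm 0 hn hm))) (UPoly.const 1))

theorem uExG (v : ℕ) {n H : α → ℕ} (hn : UPoly n) (hH : UPoly H) :
    UPoly (fun a => ExG v (n a) (H a)) :=
  UPoly.add hn (UPoly.mul hn (uE1 v hH))

theorem uPPG (v : ℕ) {n H : α → ℕ} (hn : UPoly n) (hH : UPoly H) :
    UPoly (fun a => PPG v (n a) (H a)) :=
  UPoly.add (UPoly.add (UPoly.add (uExG v hn hH) (UPoly.mul (UPoly.mul hn hn) hH)) hn)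
    (UPoly.const 1)

theorem uDG {n H : α → ℕ} (hn : UPoly n) (hH : UPoly H) : UPoly (fun a => DG (n a) (H a)) :=
  UPoly.mul (UPoly.mul hn hn) hH

theorem uXB (v k : ℕ) {n m : α → ℕ} (hn : UPoly n) (hm : UPoly m) :
    UPoly (fun a => XB v k (n a) (m a)) :=
  upow (UPoly.add (UPoly.add (UPoly.add (uPPG (v + v + 2) hn (uHB v k hn hm))
    (uDG hn (uHB v k hn hm))) hn) (UPoly.const 5)) 2

end UPoly

/-- The decision procedure. -/
def algB (v k c : ℕ) (x : List Bool) : Bool :=
  (unbits (List Gate) x).elim false fun C =>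
    testP v (mm 0 (x.length ^ c) x.length) (NB k (x.length ^ c))
      (List.range (XB v k (x.length ^ c) x.length + 1))
      (List.range (XB v k (x.length ^ c) x.length ^ 2))
      (ExG (v + v + 2) (x.length ^ c) (HB v k (x.length ^ c) x.length) + 1) C

theorem poly_algB (v k c : ℕ) : NPC.Poly (algB v k c) := by
  have hm : UPoly (fun p : List Bool × List Gate => p.1.length) :=
    UPoly.length (NPC.Poly.fst NPC.Poly.id)
  have hn : UPoly (fun p : List Bool × List Gate => p.1.length ^ c) := upow hm c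
  have hX : UPoly (fun p : List Bool × List Gate => XB v k (p.1.length ^ c) p.1.length) :=
    uXB v k hn hm
  have hM : UPoly (fun p : List Bool × List Gate => mm 0 (p.1.length ^ c) p.1.length) :=
    umm 0 hn hm
  have h1 : NPC.Poly (fun p : List Bool × List Gate =>
      List.range (XB v k (p.1.length ^ c) p.1.length + 1)) :=
    (UPoly.add hX (UPoly.const 1)).range
  have h2 : NPC.Poly (fun p : List Bool × List Gate =>
      List.range (XB v k (p.1.length ^ c) p.1.length ^ 2)) := (upow hX 2).range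
  have h3 : UPoly (fun p : List Bool × List Gate =>
      ExG (v + v + 2) (p.1.length ^ c) (HB v k (p.1.length ^ c) p.1.length) + 1) :=
    UPoly.add (uExG (v + v + 2) hn (uHB v k hn hm)) (UPoly.const 1)
  have h4 : NPC.Poly (fun p : List Bool × List Gate => p.2) := NPC.Poly.snd NPC.Poly.id
  have h5 := poly_testP v hM hM.toPoly (uNB k hn) h1 h2 h3 h4
  exact NPC.Poly.optElim (o := fun x => unbits (List Gate) x) (g := fun _ => false)
    (h := fun (x : List Bool) (C : List Gate) =>
      testP v (mm 0 (x.length ^ c) x.length) (NB k (x.length ^ c))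
        (List.range (XB v k (x.length ^ c) x.length + 1))
        (List.range (XB v k (x.length ^ c) x.length ^ 2))
        (ExG (v + v + 2) (x.length ^ c) (HB v k (x.length ^ c) x.length) + 1) C)
    poly_unbits (NPC.Poly.const false) h5

/-- The main theorem. -/
theorem main_theoremB (v k c : ℕ) : ∃ A : List Bool → List Bool, PolyTime A ∧
    (∀ x, A x = [true] ∨ A x = [false]) ∧
    (∀ x ∈ ACIT, A x = [true]) ∧
    (∀ x, (∀ C : List Gate, WF C → bits C ≠ x) → A x = [false]) ∧
    ∀ C : List Gate, TameG (gB v (NB k ((bits C).length ^ c))) ((bits C).length ^ c) (cpoly C) →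
      A (bits C) = [false] := by
  refine ⟨fun x => [algB v k c x], polyTime_of_poly (poly_algB v k c), ?_, ?_, ?_, ?_⟩
  · intro x
    cases h : algB v k c x
    · right; simp [h]
    · left; simp [h]
  · rintro x ⟨C, rfl, hC, h0⟩
    simp only [algB, unbits_bits, Option.elim]
    rw [testP_of_zero v _ _ _ _ _ C hC h0]
  · intro x hx
    simp only [algB]
    cases h : unbits (List Gate) x with
    | none => rfl
    | some C =>
      have h1 : ¬ WF C := fun hC => hx C hC (bits_of_unbits h)
      simp only [Option.elim]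
      rw [← wfB_iff, Bool.not_eq_true] at h1
      rw [testP, h1, Bool.false_and]
  · intro C hC
    simp only [algB, unbits_bits, Option.elim]
    rw [test_of_tameB _ _ C (m := (bits C).length) ?_ ?_ ?_ hC]
    · rw [bits_length]
      exact (length_lt_sz C).le
    · intro p hp
      rw [List.mem_range]
      omega
    · intro a ha
      rw [List.mem_range]
      exact ha

end Pool.Agent.W936.SP
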