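import Pool.Agent.W936.SP.Class
import Pool.Agent.W936.Main

/-!
# The class of circuits and the main theorem
-/

set_option autoImplicit false

namespace Pool.Agent.W936.SP

open MvPolynomial Pool.Agent.NPC Pool.Agent.H531R2

open Pool.Agent.H626R2.Loc (evG)

open Pool.Agent.Results.MP_c2aa42_lc.SumsOfSparseFormulas

/-- `F` is a rational combination `∑ c_i T_i` of `n` power products `T_i = ∏_j g_j ^ e_ij`, no
`κ + 1` of which are algebraically independent, of `n` nonzero polynomials `g_j` in `n` variables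
with integer coefficients, of degree at most `n`, with coefficients whose absolute values add up
to at most `2 ^ n`, which are composite: `Composite w n D t`. The exponents `e_ij` are at most
`2 ^ n`, the `c_i` are arbitrary rational numbers. -/
def Few (w D t κ n : ℕ) (F : MvPolynomial (Fin n) ℚ) : Prop :=
  ∃ (g : Fin n → MvPolynomial (Fin n) ℤ) (e : Fin n → Fin n → ℕ) (c : Fin n → ℚ),
    (∀ j, g j ≠ 0 ∧ (g j).totalDegree ≤ n ∧
      ∑ a ∈ (g j).support, (coeff a (g j)).natAbs ≤ 2 ^ n ∧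
      Composite w n D t (map (Int.castRingHom ℂ) (g j))) ∧
    (∀ i j, e i j ≤ 2 ^ n) ∧
    (∀ u : Fin (κ + 1) → Fin n, ¬ AlgebraicIndependent ℂ
      (fun a => map (Int.castRingHom ℂ) (∏ j, g j ^ e (u a) j))) ∧
    F = ∑ i, C (c i) * ∏ j, map (Int.castRingHom ℚ) (g j) ^ e i j

/-- Up to the names of its at most `n` variables, `f` is an integer polynomial `f'` which divides,
over the rational numbers, a product of `n` nonzero polynomials with `Few w D t κ n`, and for all
prime numbers `p > n` with at most `n` exceptions, the power `p ^ (n + 1)` does not divide all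
coefficients of `f'`. -/
def Tame (w D t κ n : ℕ) (f : MvPolynomial ℕ ℤ) : Prop :=
  ∃ (σ : Fin n → ℕ) (f' : MvPolynomial (Fin n) ℤ), Function.Injective σ ∧ f = rename σ f' ∧
    (∃ Q : Finset ℕ, Q.card ≤ n ∧
      ∀ p : ℕ, p.Prime → n < p → p ∉ Q → ¬ (C ((p : ℤ) ^ (n + 1)) ∣ f')) ∧
    ∃ F : Fin n → MvPolynomial (Fin n) ℚ, (∀ a, F a ≠ 0 ∧ Few w D t κ n (F a)) ∧
      map (Int.castRingHom ℚ) f' ∣ ∏ a, F a

/-- combinations of the products are in the class over the complex numbers -/
theorem comb_sums {w D t κ n : ℕ} (g : Fin n → MvPolynomial (Fin n) ℤ)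
    (e : Fin n → Fin n → ℕ)
    (hg : ∀ j, Composite w n D t (map (Int.castRingHom ℂ) (g j)))
    (htr : ∀ u : Fin (κ + 1) → Fin n, ¬ AlgebraicIndependent ℂ
      (fun a => map (Int.castRingHom ℂ) (∏ j, g j ^ e (u a) j))) (δ : Fin n → ℤ) :
    Sums w n D t κ (toC n (∑ i, C (δ i) * ∏ j, g j ^ e i j)) := by
  classical
  set T : Fin n → Multiset (MvPolynomial (Fin n) ℂ) := fun i =>
    ∑ j, Multiset.replicate (e i j) (map (Int.castRingHom ℂ) (g j)) with hT
  have hprod : ∀ i, (T i).prod = map (Int.castRingHom ℂ) (∏ j, g j ^ e i j) := by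
    intro i
    simp only [hT, Multiset.prod_sum, Multiset.prod_replicate, map_prod, map_pow]
  refine ⟨n, T, ?_, ?_, ?_⟩
  · intro i h hh
    simp only [hT, Multiset.mem_sum, Finset.mem_univ, true_and] at hh
    obtain ⟨j, hj⟩ := hh
    rw [Multiset.eq_of_mem_replicate hj]
    exact hg j
  · intro u hu
    simp only [hprod] at hu
    exact htr u hu
  · rw [toC, map_sum]
    refine Subalgebra.sum_mem _ fun i _ => ?_
    rw [map_mul, map_C, ← hprod]
    exact Subalgebra.mul_mem _ (Subalgebra.algebraMap_mem _ _)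
      (Algebra.subset_adjoin ⟨i, rfl⟩)

theorem few_fewG {w D t κ n A v : ℕ} (hw : 1 ≤ w)
    (hv : ∀ (M : ℕ) (f : MvPolynomial (Fin M) ℂ), Sums w n D t κ f → f ≠ 0 →
      evG ℂ (bC M (NB A n)) v f ≠ 0) (σ : Fin n → ℕ) (hσ : Function.Injective σ)
    {F : MvPolynomial (Fin n) ℚ} (hF : Few w D t κ n F) :
    FewG (gB v (NB A n)) n (rename σ F) := by
  classical
  obtain ⟨g, e, c, hg, he, htr, rfl⟩ := hF
  set g' : Fin n → MvPolynomial (Fin n) ℤ := fun j => if ∃ i, e i j ≠ 0 then g j else 1 with hg'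
  have hpow : ∀ i j, g' j ^ e i j = g j ^ e i j := by
    intro i j
    by_cases h : ∃ i, e i j ≠ 0
    · simp only [hg', if_pos h]
    · have h1 : e i j = 0 := by
        by_contra h2
        exact h ⟨i, h2⟩
      rw [h1, pow_zero, pow_zero]
  have hg'0 : ∀ j, g' j ≠ 0 := by
    intro j
    by_cases h : ∃ i, e i j ≠ 0
    · simp only [hg', if_pos h]; exact (hg j).1
    · simp only [hg', if_neg h]; exact one_ne_zero
  have hg'd : ∀ j, (g' j).totalDegree ≤ n := by
    intro j
    by_cases h : ∃ i, e i j ≠ 0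
    · simp only [hg', if_pos h]; exact (hg j).2.1
    · simp only [hg', if_neg h, totalDegree_one]; exact Nat.zero_le _
  have hg'n : ∀ j, nrm (rename σ (g' j)) ≤ 2 ^ n := by
    intro j
    by_cases h : ∃ i, e i j ≠ 0
    · simp only [hg', if_pos h]
      exact (nrm_rename_le σ (g j)).trans (hg j).2.2.1
    · simp only [hg', if_neg h, map_one]
      exact nrm_one.trans Nat.one_le_two_pow
  refine ⟨Finset.univ.image σ, fun j => rename σ (g' j), e, c, ?_, ?_, he, ?_, ?_⟩
  · refine Finset.card_image_le.trans ?_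
    rw [Finset.card_univ, Fintype.card_fin]
  · intro j
    refine ⟨?_, (totalDegree_rename_le _ _).trans (hg'd j), hg'n j⟩
    refine (vars_rename σ (g' j)).trans ?_
    exact Finset.image_subset_image (Finset.subset_univ _)
  · refine injB_of (fun N => {f | Sums w n D t κ f})
      (fun N N' τ hτ f hf => sumsS_ren hw hτ hf)
      (fun M f hf hf0 => hv M f hf hf0) σ hσ g' e hg'0 ?_ ?_
    · intro j
      by_cases h : ∃ i, e i j ≠ 0
      · exact Or.inr h
      · left
        simp only [hg', if_neg h]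
    · intro δ
      have h1 : ∑ i, C (δ i) * ∏ j, g' j ^ e i j = ∑ i, C (δ i) * ∏ j, g j ^ e i j := by
        refine Finset.sum_congr rfl fun i _ => ?_
        congr 1
        exact Finset.prod_congr rfl fun j _ => hpow i j
      rw [h1]
      exact comb_sums g e (fun j => (hg j).2.2.2) htr δ
  · rw [map_sum]
    refine Finset.sum_congr rfl fun i _ => ?_
    rw [map_mul, rename_C, map_prod]
    congr 1
    refine Finset.prod_congr rfl fun j _ => ?_
    rw [map_pow, iQ, map_rename, ← map_pow, ← map_pow, ← map_pow, ← map_pow, hpow]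

theorem tame_tameG {w D t κ n A v : ℕ} (hw : 1 ≤ w)
    (hv : ∀ (M : ℕ) (f : MvPolynomial (Fin M) ℂ), Sums w n D t κ f → f ≠ 0 →
      evG ℂ (bC M (NB A n)) v f ≠ 0) {f : MvPolynomial ℕ ℤ} (hf : Tame w D t κ n f) :
    TameG (gB v (NB A n)) n f := by
  classical
  obtain ⟨σ, f', hσ, rfl, ⟨Q, hQ, hcont⟩, F, hF, hdvd⟩ := hf
  refine ⟨⟨Q, hQ, fun p hp hpn hpQ hd => hcont p hp hpn hpQ ?_⟩,
    fun a => rename σ (F a), fun a => ⟨fun h0 => (hF a).1 ?_, few_fewG hw hv σ hσ (hF a).2⟩, ?_⟩
  · have h1 := map_dvd (killCompl hσ) hd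
    rw [killCompl_rename_app, killCompl_C] at h1
    exact h1
  · exact rename_injective σ hσ (by rw [map_zero]; exact h0)
  · rw [map_rename, ← map_prod]
    exact map_dvd (rename σ) hdvd

/-- The main theorem. -/
theorem main (w D t κ c : ℕ) (hw : 1 ≤ w) : ∃ A : List Bool → List Bool, PolyTime A ∧
    (∀ x, A x = [true] ∨ A x = [false]) ∧
    (∀ x ∈ ACIT, A x = [true]) ∧
    (∀ x, (∀ C : List Gate, WF C → bits C ≠ x) → A x = [false]) ∧
    ∀ C : List Gate, Tame w D t κ ((bits C).length ^ c) (cpoly C) →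
      A (bits C) = [false] := by
  obtain ⟨k, m, hm⟩ := sums_hitB w D κ
  obtain ⟨A, h1, h2, h3, h4, h5⟩ := main_theoremB (m * (t + 1)) k c
  refine ⟨A, h1, h2, h3, h4, fun C hC => h5 C (tame_tameG hw (fun M f hf hf0 => ?_) hC)⟩
  exact hm M _ t (bC M _) (fun h h0 hs => bC_ne h0 hs) f hf hf0

end Pool.Agent.W936.SP
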