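import Pool.Agent.W936.SP.Main
import Pool.Agent.Results.MP_c2aa42_lc.BoundedCooccurrence

/-!
# Circuits of exponential degree: sums of unboundedly many power products with bounded
co-occurrence of the variables
-/

set_option autoImplicit false

namespace Pool.Agent.W936.SP.Th

open MvPolynomial Pool.Agent.NPC Pool.Agent.H531R2 Pool.Agent.W936.SP

open Pool.Agent.H626R2.Loc (evG)

open Pool.Agent.Results.MP_c2aa42_lc.SumsOfSparseFormulas (Composite Sums)

open Pool.Agent.Results.MP_c2aa42_lc.BoundedCooccurrence (Cls Thin cls_of_thin)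

/-- `F` is a rational combination `∑ c_i T_i` of `n` power products `T_i = ∏_j g_j ^ e_ij` of `n`
nonzero polynomials `g_j` in `n` variables with integer coefficients, of degree at most `n`, with
coefficients whose absolute values add up to at most `2 ^ n`, which are composite:
`Composite w n D t`. The exponents `e_ij` are at most `2 ^ n`, the `c_i` are arbitrary rational
numbers. There are sets `V i` of variables which contain the variables of the bases of `T_i` (the
`g_j` with `e_ij ≠ 0`) and form a thin hypergraph of depth `r`: `Thin w κ r`. -/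
def Few (w D t κ r n : ℕ) (F : MvPolynomial (Fin n) ℚ) : Prop :=
  ∃ (g : Fin n → MvPolynomial (Fin n) ℤ) (e : Fin n → Fin n → ℕ) (c : Fin n → ℚ)
    (V : Fin n → Finset (Fin n)),
    (∀ j, g j ≠ 0 ∧ (g j).totalDegree ≤ n ∧
      ∑ a ∈ (g j).support, (coeff a (g j)).natAbs ≤ 2 ^ n ∧
      Composite w n D t (map (Int.castRingHom ℂ) (g j))) ∧
    (∀ i j, e i j ≤ 2 ^ n) ∧
    (∀ i j, e i j ≠ 0 → (g j).vars ⊆ V i) ∧ Thin w κ r Finset.univ V ∧
    F = ∑ i, C (c i) * ∏ j, map (Int.castRingHom ℚ) (g j) ^ e i j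

/-- Up to the names of its at most `n` variables, `f` is an integer polynomial `f'` which divides,
over the rational numbers, a product of `n` nonzero polynomials with `Few w D t κ r n`, and for all
prime numbers `p > n` with at most `n` exceptions, the power `p ^ (n + 1)` does not divide all
coefficients of `f'`. -/
def Tame (w D t κ r n : ℕ) (f : MvPolynomial ℕ ℤ) : Prop :=
  ∃ (σ : Fin n → ℕ) (f' : MvPolynomial (Fin n) ℤ), Function.Injective σ ∧ f = rename σ f' ∧
    (∃ Q : Finset ℕ, Q.card ≤ n ∧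
      ∀ p : ℕ, p.Prime → n < p → p ∉ Q → ¬ (C ((p : ℤ) ^ (n + 1)) ∣ f')) ∧
    ∃ F : Fin n → MvPolynomial (Fin n) ℚ, (∀ a, F a ≠ 0 ∧ Few w D t κ r n (F a)) ∧
      map (Int.castRingHom ℚ) f' ∣ ∏ a, F a

/-- sums of products over the complex numbers -/
def ThinSum (w s D t κ r : ℕ) {N : ℕ} (f : MvPolynomial (Fin N) ℂ) : Prop :=
  ∃ (m : ℕ) (c : Fin m → ℂ) (T : Fin m → Multiset (MvPolynomial (Fin N) ℂ))
    (V : Fin m → Finset (Fin N)), (∀ i, ∀ g ∈ T i, Composite w s D t g ∧ g.vars ⊆ V i) ∧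
    Thin w κ r Finset.univ V ∧ f = ∑ i, C (c i) * (T i).prod

theorem thin_empty {w κ r N : ℕ} {I : Type} (V : I → Finset (Fin N)) : Thin w κ r ∅ V := by
  induction r generalizing V with
  | zero => exact Nat.zero_le _
  | succ r ih =>
    refine ⟨∅, Nat.zero_le _, fun x _ => ?_⟩
    have h1 := ih (fun i => (V i).erase x)
    convert h1 using 1
    exact Finset.filter_empty _

theorem thin_map {w κ r N M : ℕ} (τ : Fin N ↪ Fin M) {I : Type} {J : Finset I}
    {V : I → Finset (Fin N)} (h : Thin w κ r J V) : Thin w κ r J (fun i => (V i).map τ) := by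
  classical
  induction r generalizing J V with
  | zero => exact h
  | succ r ih =>
    obtain ⟨E, hE, hx⟩ := h
    refine ⟨E.map τ, by rwa [Finset.card_map], fun y hy => ?_⟩
    by_cases hyr : ∃ x, τ x = y
    · obtain ⟨x, rfl⟩ := hyr
      have hxE : x ∉ E := fun hc => hy (Finset.mem_map_of_mem τ hc)
      have h1 := ih (hx x hxE)
      have h2 : (J.filter fun i => τ x ∈ (V i).map τ) = J.filter fun i => x ∈ V i := by
        refine Finset.filter_congr fun i _ => ?_
        rw [Finset.mem_map' τ]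
      have h3 : (fun i => ((V i).map τ).erase (τ x)) = fun i => ((V i).erase x).map τ := by
        funext i
        rw [Finset.map_erase]
      rw [h3]
      convert h1 using 1
    · have h2 : (J.filter fun i => y ∈ (V i).map τ) = ∅ := by
        rw [Finset.filter_eq_empty_iff]
        intro i _ hi
        obtain ⟨x, _, hx⟩ := Finset.mem_map.1 hi
        exact hyr ⟨x, hx⟩
      have h3 : Thin w κ r (∅ : Finset I) (fun i => ((V i).map τ).erase y) := thin_empty _
      convert h3 using 1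

theorem thinSum_ren {w s D t κ r n M : ℕ} (hw : 1 ≤ w) {τ : Fin n → Fin M}
    (hτ : Function.Injective τ) {f : MvPolynomial (Fin n) ℂ} (h : ThinSum w s D t κ r f) :
    ThinSum w s D t κ r (rename τ f) := by
  classical
  obtain ⟨m, c, T, V, hT, hV, rfl⟩ := h
  refine ⟨m, c, fun i => (T i).map (rename τ), fun i => (V i).map ⟨τ, hτ⟩, ?_,
    thin_map ⟨τ, hτ⟩ hV, ?_⟩
  · intro i g hg
    obtain ⟨g', hg', rfl⟩ := Multiset.mem_map.1 hg
    refine ⟨compS_ren hw hτ (hT i g' hg').1, fun y hy => ?_⟩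
    obtain ⟨x, hx, rfl⟩ := Finset.mem_image.1 (vars_rename τ g' hy)
    exact Finset.mem_map_of_mem ⟨τ, hτ⟩ ((hT i g' hg').2 hx)
  · rw [map_sum]
    refine Finset.sum_congr rfl fun i _ => ?_
    rw [map_mul, rename_C]
    congr 1
    exact (Multiset.prod_hom (T i) (rename τ)).symm

/-- the members of the class `Cls` do not vanish on the generator -/
theorem cls_hitB {w s D t κ m n : ℕ} {β : Fin n → Polynomial ℂ}
    (hm : ∀ f : MvPolynomial (Fin n) ℂ, Sums w s D t κ f → f ≠ 0 →
      evG ℂ β (m * (t + 1)) f ≠ 0) {r : ℕ}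
    {f : MvPolynomial (Fin n) ℂ} (hf : Cls w s D t κ r f) : f ≠ 0 →
    evG ℂ β (m * (t + 1) + r) f ≠ 0 := by
  induction hf with
  | sums h => exact fun h0 => hm _ h h0
  | mono _ ih => exact fun h0 => Pool.Agent.W936.LC.evG_mono (Nat.le_succ _) (ih h0)
  | mul _ _ ihf ihg =>
    intro h0
    rw [map_mul]
    exact mul_ne_zero (ihf (left_ne_zero_of_mul h0)) (ihg (right_ne_zero_of_mul h0))
  | factor _ hg0 hdvd ih =>
    intro _ hc
    obtain ⟨q, rfl⟩ := hdvd
    apply ih hg0
    rw [map_mul, hc, zero_mul]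
  | @step r f Λ hΛ h1 _ ih =>
    intro _ hc
    apply ih h1
    rw [map_sum]
    exact Finset.sum_eq_zero fun x _ => Pool.Agent.W936.LC.step_mem hc (hΛ x)

theorem thin_hitB (w D κ r : ℕ) : ∃ A m : ℕ, ∀ n s t : ℕ, ∀ β : Fin n → Polynomial ℂ,
    (∀ h : MvPolynomial (Fin n) ℂ, h ≠ 0 → h.support.card ≤ (s + 2) ^ A → aeval β h ≠ 0) →
    ∀ f : MvPolynomial (Fin n) ℂ, ThinSum w s D t κ r f → f ≠ 0 →
      evG ℂ β (m * (t + 1)) f ≠ 0 := by
  obtain ⟨A, m, hm⟩ := sums_hitB w D (2 ^ r * κ)
  refine ⟨A, m + (r + w), fun n s t β hβ f hf h0 => ?_⟩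
  obtain ⟨m', c, T, V, hT, hV, rfl⟩ := hf
  have h1 := cls_hitB (hm n s t β hβ) (cls_of_thin r Finset.univ c T V
    (fun i _ g hg => hT i g hg) hV) h0
  refine Pool.Agent.W936.LC.evG_mono ?_ h1
  rw [add_mul]
  exact Nat.add_le_add_left (Nat.le_mul_of_pos_right _ (Nat.succ_pos t)) _

/-- combinations of the products are in the class over the complex numbers -/
theorem comb_thin {w D t κ r n : ℕ} (g : Fin n → MvPolynomial (Fin n) ℤ)
    (e : Fin n → Fin n → ℕ) (V : Fin n → Finset (Fin n))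
    (hg : ∀ j, Composite w n D t (map (Int.castRingHom ℂ) (g j)))
    (hV : ∀ i j, e i j ≠ 0 → (g j).vars ⊆ V i) (hth : Thin w κ r Finset.univ V)
    (δ : Fin n → ℤ) :
    ThinSum w n D t κ r (toC n (∑ i, C (δ i) * ∏ j, g j ^ e i j)) := by
  classical
  set T : Fin n → Multiset (MvPolynomial (Fin n) ℂ) := fun i =>
    ∑ j, Multiset.replicate (e i j) (map (Int.castRingHom ℂ) (g j)) with hT
  have hprod : ∀ i, (T i).prod = map (Int.castRingHom ℂ) (∏ j, g j ^ e i j) := by
    intro i
    simp only [hT, Multiset.prod_sum, Multiset.prod_replicate, map_prod, map_pow]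
  refine ⟨n, fun i => ((δ i : ℤ) : ℂ), T, V, ?_, hth, ?_⟩
  · intro i h hh
    simp only [hT, Multiset.mem_sum, Finset.mem_univ, true_and] at hh
    obtain ⟨j, hj⟩ := hh
    rw [Multiset.eq_of_mem_replicate hj]
    refine ⟨hg j, (vars_map _ _).trans (hV i j ?_)⟩
    rintro h0
    rw [h0, Multiset.replicate_zero] at hj
    exact Multiset.notMem_zero _ hj
  · rw [toC, map_sum]
    refine Finset.sum_congr rfl fun i _ => ?_
    rw [map_mul, map_C, ← hprod]
    rfl

theorem few_fewG {w D t κ r n A v : ℕ} (hw : 1 ≤ w)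
    (hv : ∀ (M : ℕ) (f : MvPolynomial (Fin M) ℂ), ThinSum w n D t κ r f → f ≠ 0 →
      evG ℂ (bC M (NB A n)) v f ≠ 0) (σ : Fin n → ℕ) (hσ : Function.Injective σ)
    {F : MvPolynomial (Fin n) ℚ} (hF : Few w D t κ r n F) :
    FewG (gB v (NB A n)) n (rename σ F) := by
  classical
  obtain ⟨g, e, c, V, hg, he, hV, hth, rfl⟩ := hF
  set g' : Fin n → MvPolynomial (Fin n) ℤ := fun j => if ∃ i, e i j ≠ 0 then g j else 1 with hg'
  have hpow : ∀ i j, g' j ^ e i j = g j ^ e i j := by
    intro i j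
    by_cases h : ∃ i, e i j ≠ 0
    · simp only [hg', if_pos h]
    · have h1 : e i j = 0 := by
        by_contra h2
        exact h ⟨i, h2⟩
      rw [h1, pow_zero, pow_zero]
  have hg'0 : ∀ j, g' j ≠ 0 := by
    intro j
    by_cases h : ∃ i, e i j ≠ 0
    · simp only [hg', if_pos h]; exact (hg j).1
    · simp only [hg', if_neg h]; exact one_ne_zero
  have hg'd : ∀ j, (g' j).totalDegree ≤ n := by
    intro j
    by_cases h : ∃ i, e i j ≠ 0
    · simp only [hg', if_pos h]; exact (hg j).2.1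
    · simp only [hg', if_neg h, totalDegree_one]; exact Nat.zero_le _
  have hg'n : ∀ j, nrm (rename σ (g' j)) ≤ 2 ^ n := by
    intro j
    by_cases h : ∃ i, e i j ≠ 0
    · simp only [hg', if_pos h]
      exact (nrm_rename_le σ (g j)).trans (hg j).2.2.1
    · simp only [hg', if_neg h, map_one]
      exact nrm_one.trans Nat.one_le_two_pow
  refine ⟨Finset.univ.image σ, fun j => rename σ (g' j), e, c, ?_, ?_, he, ?_, ?_⟩
  · refine Finset.card_image_le.trans ?_
    rw [Finset.card_univ, Fintype.card_fin]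
  · intro j
    refine ⟨?_, (totalDegree_rename_le _ _).trans (hg'd j), hg'n j⟩
    refine (vars_rename σ (g' j)).trans ?_
    exact Finset.image_subset_image (Finset.subset_univ _)
  · refine injB_of (fun N => {f | ThinSum w n D t κ r f})
      (fun N N' τ hτ f hf => thinSum_ren hw hτ hf)
      (fun M f hf hf0 => hv M f hf hf0) σ hσ g' e hg'0 ?_ ?_
    · intro j
      by_cases h : ∃ i, e i j ≠ 0
      · exact Or.inr h
      · left
        simp only [hg', if_neg h]
    · intro δ
      have h1 : ∑ i, C (δ i) * ∏ j, g' j ^ e i j = ∑ i, C (δ i) * ∏ j, g j ^ e i j := by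
        refine Finset.sum_congr rfl fun i _ => ?_
        congr 1
        exact Finset.prod_congr rfl fun j _ => hpow i j
      rw [h1]
      exact comb_thin g e V (fun j => (hg j).2.2.2) hV hth δ
  · rw [map_sum]
    refine Finset.sum_congr rfl fun i _ => ?_
    rw [map_mul, rename_C, map_prod]
    congr 1
    refine Finset.prod_congr rfl fun j _ => ?_
    rw [map_pow, iQ, map_rename, ← map_pow, ← map_pow, ← map_pow, ← map_pow, hpow]

theorem tame_tameG {w D t κ r n A v : ℕ} (hw : 1 ≤ w)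
    (hv : ∀ (M : ℕ) (f : MvPolynomial (Fin M) ℂ), ThinSum w n D t κ r f → f ≠ 0 →
      evG ℂ (bC M (NB A n)) v f ≠ 0) {f : MvPolynomial ℕ ℤ} (hf : Tame w D t κ r n f) :
    TameG (gB v (NB A n)) n f := by
  classical
  obtain ⟨σ, f', hσ, rfl, ⟨Q, hQ, hcont⟩, F, hF, hdvd⟩ := hf
  refine ⟨⟨Q, hQ, fun p hp hpn hpQ hd => hcont p hp hpn hpQ ?_⟩,
    fun a => rename σ (F a), fun a => ⟨fun h0 => (hF a).1 ?_, few_fewG hw hv σ hσ (hF a).2⟩, ?_⟩
  · have h1 := map_dvd (killCompl hσ) hd
    rw [killCompl_rename_app, killCompl_C] at h1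
    exact h1
  · exact rename_injective σ hσ (by rw [map_zero]; exact h0)
  · rw [map_rename, ← map_prod]
    exact map_dvd (rename σ) hdvd

/-- The main theorem. -/
theorem main (w D t κ r c : ℕ) (hw : 1 ≤ w) : ∃ A : List Bool → List Bool, PolyTime A ∧
    (∀ x, A x = [true] ∨ A x = [false]) ∧
    (∀ x ∈ ACIT, A x = [true]) ∧
    (∀ x, (∀ C : List Gate, WF C → bits C ≠ x) → A x = [false]) ∧
    ∀ C : List Gate, Tame w D t κ r ((bits C).length ^ c) (cpoly C) →
      A (bits C) = [false] := by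
  obtain ⟨k, m, hm⟩ := thin_hitB w D κ r
  obtain ⟨A, h1, h2, h3, h4, h5⟩ := main_theoremB (m * (t + 1)) k c
  refine ⟨A, h1, h2, h3, h4, fun C hC => h5 C (tame_tameG hw (fun M f hf hf0 => ?_) hC)⟩
  exact hm M _ t (bC M _) (fun h h0 hs => bC_ne h0 hs) f hf hf0

end Pool.Agent.W936.SP.Th
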